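import Mathlib

set_option autoImplicit false

/-! # Project LF: an elementary asymptotic statement -/

namespace Pool.Agent.N404.LF

/-- For all large `N`, five inequalities. -/
def S_EV : Prop := ∀ (k C K c₀ C₁ C₃ : ℕ) (c θ : ℝ), 2 ≤ k → 0 < c → 0 < θ → θ < 1 →
  ∃ N₀ : ℕ, ∀ N : ℕ, N₀ ≤ N →
    C₁ * (⌈(N : ℝ) ^ (3 / 5 : ℝ)⌉₊ + c₀) ≤ N ∧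
    (N : ℝ) ^ (1 / 3 : ℝ) * ((3 * ((N : ℝ) + 1)) ^ K * Real.exp (-(c * (N : ℝ) ^ (1 / 5 : ℝ)))) ≤
      1 / 3 ∧
    (N : ℝ) ^ (1 / 3 : ℝ) * (C₁ * ((⌈(N : ℝ) ^ (3 / 5 : ℝ)⌉₊ + c₀ : ℕ) : ℝ)) ≤ N / 3 ∧
    (N : ℝ) ^ (1 / 3 : ℝ) * C₃ ≤ (⌈(N : ℝ) ^ (2 / 5 : ℝ)⌉₊ : ℝ) / 3 ∧
    (3 * ((N : ℝ) + 1)) ^ C *
      (k : ℝ) ^ (⌈(N : ℝ) ^ (3 / 5 : ℝ)⌉₊ + c₀ + c₀ + ⌈(N : ℝ) ^ (2 / 5 : ℝ)⌉₊) * (1 - θ) ^ N ≤ 1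

end Pool.Agent.N404.LF
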