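import Pool.Agent.N404.LF.Ext
import Pool.Agent.N404.LF.Stm2

set_option autoImplicit false

/-! The main count for almost all lifts. -/

namespace Pool.Agent.N404.LF

open Finset Classical

theorem fact_ratio {N' N L : ℕ} (h : N' ≤ N) (hL : N - N' ≤ L) (hN : 1 ≤ N) :
    N.factorial ≤ N'.factorial * N ^ L := by
  have h1 := Nat.factorial_mul_descFactorial (n := N) (k := N - N') (Nat.sub_le _ _)
  rw [Nat.sub_sub_self h] at h1
  rw [← h1]
  refine Nat.mul_le_mul_left _ ?_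
  exact (Nat.descFactorial_le_pow N (N - N')).trans (Nat.pow_le_pow_right hN hL)

theorem lift_empty {V I : Type} [Fintype V] [IsEmpty V] (s t : I → V) {N : ℕ}
    (π : I → Equiv.Perm (Fin N)) (k : ℕ) (a b : ℝ) :
    a ^ (Nat.card (Lift s t π).edgeSet) * b ^ (N * Fintype.card V) ≤
      (Nat.card ((Lift s t π).Coloring (Fin k)) : ℝ) := by
  have h1 : Nat.card (Lift s t π).edgeSet = 0 := by
    have : IsEmpty (Lift s t π).edgeSet := by
      refine ⟨fun e => ?_⟩
      obtain ⟨e, he⟩ := e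
      induction e using Sym2.ind with
      | _ x y => exact IsEmpty.false x.1
    exact Nat.card_of_isEmpty
  have h2 : Fintype.card V = 0 := Fintype.card_eq_zero
  rw [h1, h2, mul_zero, pow_zero, pow_zero, one_mul]
  have hfin : Finite ((Lift s t π).Coloring (Fin k)) :=
    Finite.of_injective (fun C : (Lift s t π).Coloring (Fin k) => (C : V × Fin N → _))
      DFunLike.coe_injective
  have hne : Nonempty ((Lift s t π).Coloring (Fin k)) :=
    ⟨SimpleGraph.Coloring.mk (fun x => (IsEmpty.false x.1).elim) (fun {x} => (IsEmpty.false x.1).elim)⟩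
  have : 0 < Nat.card ((Lift s t π).Coloring (Fin k)) := Nat.card_pos
  exact_mod_cast this

theorem hd_empty {I X : Type} [Fintype I] [Fintype X] [IsEmpty I] (π π' : I → Equiv.Perm X) :
    hd π π' = 0 := by
  unfold hd
  exact Finset.card_eq_zero.2 (Finset.eq_empty_of_isEmpty _)

theorem proof_MAIN (hMOM : S_MOM) (hISO : S_ISO) (hSPA : S_SPA) (hDEG : S_DEG) (hEDG : S_EDG)
    (hEV : S_EV) : S_MAIN := by
  intro V I _ _ _ _ s t k D θ hk hD hdeg hθ0 hθ1
  rcases isEmpty_or_nonempty V with hV | hV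
  · refine ⟨0, fun N _ => ?_⟩
    have : (univ.filter fun π : I → Equiv.Perm (Fin N) =>
      ¬ ((1 - 1 / (k : ℝ)) ^ (Nat.card (Lift s t π).edgeSet) *
          ((k : ℝ) * (1 - θ)) ^ (N * Fintype.card V) ≤
        (Nat.card ((Lift s t π).Coloring (Fin (k + 4))) : ℝ))) = ∅ := by
      rw [Finset.filter_eq_empty_iff]
      intro π _
      rw [not_not]
      exact lift_empty s t π _ _ _
    rw [this, card_empty, Nat.cast_zero, mul_zero]
    positivity
  obtain ⟨C, hC⟩ := hMOM V I s t k D hk hD hdeg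
  obtain ⟨C₁, hC₁⟩ := hSPA V I s t
  obtain ⟨C₃, hC₃⟩ := hEDG V I s t
  set nV := Fintype.card V with hnV
  set nI := Fintype.card I with hnI
  have hnV1 : 1 ≤ nV := Fintype.card_pos
  set L := k * (k - 1) with hL
  have hL1 : 1 ≤ L := Nat.mul_pos (by omega) (by omega)
  set c₀ := nV * L with hc₀
  set K := C + L * nI with hK
  set c : ℝ := 1 / (18 * ((nI : ℝ) + 1)) with hc
  have hc0 : 0 < c := by positivity
  obtain ⟨N₀, hN₀⟩ := hEV k C K c₀ C₁ C₃ c θ hk hc0 hθ0 hθ1
  refine ⟨max N₀ L, fun N hN => ?_⟩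
  have hNN₀ : N₀ ≤ N := (le_max_left _ _).trans hN
  have hNL : L ≤ N := (le_max_right _ _).trans hN
  have hN1 : 1 ≤ N := hL1.trans hNL
  obtain ⟨ev1, ev2, ev3, ev4, ev5⟩ := hN₀ N hNN₀
  set M := N / L with hM
  have hM1 : 1 ≤ M := (Nat.one_le_div_iff hL1).2 hNL
  set N' := L * M with hN'
  have hle : N' ≤ N := Nat.mul_div_le N L
  have hsub : N - N' ≤ L := by
    have h1 : N' + N % L = N := Nat.div_add_mod N L
    have h2 := Nat.mod_lt N hL1
    omega
  obtain ⟨A, hA1, hA2⟩ := hC M N' hM1 rfl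
  set T : ℝ := 3 * ((N : ℝ) + 1) with hT
  have hN0' : (0 : ℝ) ≤ N := Nat.cast_nonneg _
  have hNpos : (0 : ℝ) < N := by exact_mod_cast hN1
  have hT3 : 3 ≤ T := by rw [hT]; linarith
  have hT1 : 1 ≤ T := by linarith
  have hNT : (N : ℝ) ≤ T := by rw [hT]; linarith
  have hT' : 3 * ((N' : ℝ) + 1) ≤ T := by
    have : (N' : ℝ) ≤ N := by exact_mod_cast hle
    rw [hT]; linarith
  have hTpow : (3 * ((N' : ℝ) + 1)) ^ C ≤ T ^ C := pow_le_pow_left₀ (by positivity) hT' C
  set A' : Finset (I → Equiv.Perm (Fin N)) := A.image (fun π i => ext hle (π i)) with hA'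
  have hA'c : A'.card = A.card := by
    refine Finset.card_image_of_injective _ ?_
    intro π π' hp
    funext i
    exact ext_inj hle (congrFun hp i)
  set F : ℝ := (N.factorial : ℝ) ^ nI with hF
  have hF0 : 0 < F := by positivity
  have hFA : F ≤ T ^ K * A'.card := by
    have h1 : (N.factorial : ℝ) ≤ (N'.factorial : ℝ) * (N : ℝ) ^ L := by
      exact_mod_cast fact_ratio hle hsub hN1
    have h2 : F ≤ (N'.factorial : ℝ) ^ nI * ((N : ℝ) ^ L) ^ nI := by
      rw [← mul_pow]; exact pow_le_pow_left₀ (by positivity) h1 _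
    calc F ≤ (N'.factorial : ℝ) ^ nI * ((N : ℝ) ^ L) ^ nI := h2
      _ ≤ ((3 * ((N' : ℝ) + 1)) ^ C * A.card) * ((N : ℝ) ^ L) ^ nI :=
          mul_le_mul_of_nonneg_right hA1 (by positivity)
      _ ≤ (T ^ C * A.card) * (T ^ L) ^ nI := by gcongr
      _ = _ := by rw [hA'c, hK, pow_add, pow_mul]; ring
  set τ : ℝ := (N : ℝ) ^ (3 / 5 : ℝ) with hτ
  have hτ0 : 0 < τ := Real.rpow_pos_of_pos hNpos _
  set B1 := univ.filter fun π : I → Equiv.Perm (Fin N) => ∀ π' ∈ A', τ ≤ hd π π' with hB1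
  have hB1c : (B1.card : ℝ) ≤ F * (T ^ K * Real.exp (-(c * (N : ℝ) ^ (1 / 5 : ℝ)))) := by
    rcases Nat.eq_zero_or_pos nI with h0 | hpos
    · have hI : IsEmpty I := Fintype.card_eq_zero_iff.1 h0
      have hAne : A'.Nonempty := by
        rw [← Finset.card_pos]
        by_contra hneg
        have : A'.card = 0 := by omega
        rw [this, Nat.cast_zero, mul_zero] at hFA
        linarith
      obtain ⟨π', hπ'⟩ := hAne
      have : B1 = ∅ := by
        rw [hB1, Finset.filter_eq_empty_iff]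
        intro π _ hcon
        have h1 := hcon π' hπ'
        have h2 : hd π π' = 0 := hd_empty π π'
        rw [h2, Nat.cast_zero] at h1
        linarith
      rw [this, card_empty, Nat.cast_zero]
      positivity
    · have h1 := hISO I N A' τ hτ0.le
      have h2 : Real.exp (-(τ ^ 2 / (18 * (N * (Fintype.card I : ℝ))))) ≤
          Real.exp (-(c * (N : ℝ) ^ (1 / 5 : ℝ))) := by
        refine Real.exp_le_exp.2 (neg_le_neg ?_)
        have hnIpos : (0 : ℝ) < nI := by exact_mod_cast hpos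
        have e1 : τ ^ 2 = N * (N : ℝ) ^ (1 / 5 : ℝ) := by
          rw [hτ, ← Real.rpow_natCast, ← Real.rpow_mul hN0']
          nth_rewrite 2 [← Real.rpow_one (N : ℝ)]
          rw [← Real.rpow_add hNpos]
          norm_num
        rw [e1, hc]
        have e2 : (N : ℝ) * (N : ℝ) ^ (1 / 5 : ℝ) / (18 * (N * (Fintype.card I : ℝ))) =
            1 / (18 * (nI : ℝ)) * (N : ℝ) ^ (1 / 5 : ℝ) := by
          rw [← hnI]
          field_simp
        rw [e2]
        refine mul_le_mul_of_nonneg_right ?_ (by positivity)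
        refine one_div_le_one_div_of_le (by positivity) ?_
        linarith
      have h3 : F * (B1.card : ℝ) ≤ F * (F * (T ^ K * Real.exp (-(c * (N : ℝ) ^ (1 / 5 : ℝ))))) := by
        calc F * (B1.card : ℝ) ≤ (T ^ K * A'.card) * B1.card :=
              mul_le_mul_of_nonneg_right hFA (Nat.cast_nonneg _)
          _ = T ^ K * ((A'.card : ℝ) * B1.card) := by ring
          _ ≤ T ^ K * (F ^ 2 * Real.exp (-(τ ^ 2 / (18 * (N * (Fintype.card I : ℝ)))))) :=
              mul_le_mul_of_nonneg_left h1 (by positivity)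
          _ ≤ T ^ K * (F ^ 2 * Real.exp (-(c * (N : ℝ) ^ (1 / 5 : ℝ)))) := by gcongr
          _ = _ := by ring
      exact le_of_mul_le_mul_left h3 hF0
  set m := ⌈(N : ℝ) ^ (3 / 5 : ℝ)⌉₊ + c₀ with hm
  set D₀ := ⌈(N : ℝ) ^ (2 / 5 : ℝ)⌉₊ with hD₀
  set B2 := univ.filter fun π : I → Equiv.Perm (Fin N) => ∃ U : Finset (V × Fin N),
      U.Nonempty ∧ U.card ≤ m ∧ 2 * U.card ≤ eU s t π U with hB2
  have hB2c : (N : ℝ) * B2.card ≤ C₁ * (m : ℝ) * F := by
    have := hC₁ N m ev1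
    rw [hF]
    exact_mod_cast this
  set B3 := univ.filter fun π : I → Equiv.Perm (Fin N) =>
      Nat.card (Lift s t π).edgeSet + D₀ < N * Fintype.card I with hB3
  have hB3c : (D₀ : ℝ) * B3.card ≤ C₃ * F := by
    have := hC₃ N D₀ hN1
    rw [hF]
    exact_mod_cast this
  have hsubset : (univ.filter fun π : I → Equiv.Perm (Fin N) =>
      ¬ ((1 - 1 / (k : ℝ)) ^ (Nat.card (Lift s t π).edgeSet) *
          ((k : ℝ) * (1 - θ)) ^ (N * Fintype.card V) ≤
        (Nat.card ((Lift s t π).Coloring (Fin (k + 4))) : ℝ))) ⊆ B1 ∪ B2 ∪ B3 := by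
    intro π hπ
    by_contra hnot
    rw [mem_union, mem_union, not_or, not_or] at hnot
    obtain ⟨⟨hn1, hn2⟩, hn3⟩ := hnot
    rw [mem_filter] at hπ
    apply hπ.2
    -- a nearby good lift
    have hex : ∃ π₀ ∈ A, (hd π (fun i => ext hle (π₀ i)) : ℝ) < τ := by
      by_contra hcon
      push Not at hcon
      apply hn1
      rw [hB1, mem_filter]
      refine ⟨mem_univ _, ?_⟩
      intro π' hπ'
      obtain ⟨π₀, hπ₀, rfl⟩ := mem_image.1 hπ'
      exact hcon π₀ hπ₀
    obtain ⟨π₀, hπ₀, hdist⟩ := hex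
    set U := Uset s hle π π₀ with hU
    have hUc : U.card ≤ m := by
      refine (card_Uset s hle π π₀).trans ?_
      rw [hm]
      refine Nat.add_le_add ?_ (Nat.mul_le_mul_left _ hsub)
      have h1 : (hd π (fun i => ext hle (π₀ i)) : ℝ) ≤ (⌈(N : ℝ) ^ (3 / 5 : ℝ)⌉₊ : ℝ) :=
        hdist.le.trans (Nat.le_ceil _)
      exact_mod_cast h1
    have hsparse : ∀ W ⊆ U, W.Nonempty → eU s t π W < 2 * W.card := by
      intro W hW hWne
      by_contra hcon
      apply hn2
      rw [hB2, mem_filter]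
      exact ⟨mem_univ _, W, hWne, (card_le_card hW).trans hUc, not_lt.1 hcon⟩
    obtain ⟨c4, hc4⟩ := hDEG V I s t N π U hsparse
    have hcount := count_ext s t (by omega : 1 ≤ k) hle π π₀ c4 hc4
    set X : ℝ := (Nat.card ((Lift s t π).Coloring (Fin (k + 4))) : ℝ) with hX
    have hX0 : 0 ≤ X := Nat.cast_nonneg _
    have hcount' : ((cols s t k π₀).card : ℝ) ≤ X * (k : ℝ) ^ m := by
      have h1 : ((cols s t k π₀).card : ℝ) ≤ X * (k : ℝ) ^ U.card := by
        rw [hX]; exact_mod_cast hcount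
      refine h1.trans (mul_le_mul_of_nonneg_left ?_ hX0)
      exact pow_le_pow_right₀ (by exact_mod_cast (by omega : 1 ≤ k)) hUc
    have hA2' := hA2 π₀ hπ₀
    set q : ℝ := 1 - 1 / (k : ℝ) with hq
    have hk0 : (0 : ℝ) < k := by positivity
    have hk2 : (2 : ℝ) ≤ k := by exact_mod_cast hk
    have hk1 : (1 : ℝ) ≤ k := by linarith
    have hq0 : 0 < q := by
      rw [hq, sub_pos, div_lt_one hk0]; linarith
    have hq1 : q ≤ 1 := by
      rw [hq]; have : 0 < 1 / (k : ℝ) := by positivity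
      linarith
    have hkq : 1 ≤ k * q := by
      rw [hq]
      have : (k : ℝ) * (1 - 1 / k) = k - 1 := by field_simp
      rw [this]; linarith
    set e := Nat.card (Lift s t π).edgeSet with he
    have hen : N * nI ≤ e + D₀ := by
      by_contra hcon
      apply hn3
      rw [hB3, mem_filter]
      exact ⟨mem_univ _, not_le.1 hcon⟩
    have hqe : q ^ (e + D₀) ≤ q ^ (N' * nI) := by
      refine pow_le_pow_of_le_one hq0.le hq1 ?_
      exact (Nat.mul_le_mul_right _ hle).trans hen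
    have hkN : (k : ℝ) ^ (N * nV) ≤ (k : ℝ) ^ (N' * nV) * (k : ℝ) ^ c₀ := by
      rw [← pow_add]
      refine pow_le_pow_right₀ hk1 ?_
      have h1 : N ≤ N' + L := by omega
      calc N * nV ≤ (N' + L) * nV := Nat.mul_le_mul_right _ h1
        _ = _ := by rw [hc₀]; ring
    have h1 : q ^ e * (k : ℝ) ^ (N * nV) ≤ X * (T ^ C * (k : ℝ) ^ (m + c₀ + D₀)) := by
      have h2 : q ^ e ≤ q ^ (e + D₀) * (k : ℝ) ^ D₀ := by
        have h3 : (1 : ℝ) ≤ (k * q) ^ D₀ := one_le_pow₀ hkq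
        calc q ^ e ≤ q ^ e * (k * q) ^ D₀ := le_mul_of_one_le_right (by positivity) h3
          _ = _ := by rw [mul_pow, pow_add]; ring
      calc q ^ e * (k : ℝ) ^ (N * nV)
          ≤ (q ^ (e + D₀) * (k : ℝ) ^ D₀) * ((k : ℝ) ^ (N' * nV) * (k : ℝ) ^ c₀) := by gcongr
        _ ≤ (q ^ (N' * nI) * (k : ℝ) ^ D₀) * ((k : ℝ) ^ (N' * nV) * (k : ℝ) ^ c₀) := by gcongr
        _ = ((k : ℝ) ^ (N' * nV) * q ^ (N' * nI)) * ((k : ℝ) ^ D₀ * (k : ℝ) ^ c₀) := by ring
        _ ≤ ((3 * ((N' : ℝ) + 1)) ^ C * (cols s t k π₀).card) * ((k : ℝ) ^ D₀ * (k : ℝ) ^ c₀) := by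
            gcongr
        _ ≤ (T ^ C * (X * (k : ℝ) ^ m)) * ((k : ℝ) ^ D₀ * (k : ℝ) ^ c₀) := by gcongr
        _ = _ := by rw [pow_add, pow_add]; ring
    have hθ' : (0 : ℝ) ≤ 1 - θ := by linarith
    have h4 : (1 - θ) ^ (N * nV) ≤ (1 - θ) ^ N := by
      refine pow_le_pow_of_le_one hθ' (by linarith) ?_
      exact Nat.le_mul_of_pos_right _ hnV1
    calc q ^ e * ((k : ℝ) * (1 - θ)) ^ (N * nV)
        = (q ^ e * (k : ℝ) ^ (N * nV)) * (1 - θ) ^ (N * nV) := by rw [mul_pow]; ring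
      _ ≤ (X * (T ^ C * (k : ℝ) ^ (m + c₀ + D₀))) * (1 - θ) ^ N := by
          refine mul_le_mul h1 h4 (by positivity) (by positivity)
      _ = X * (T ^ C * (k : ℝ) ^ (m + c₀ + D₀) * (1 - θ) ^ N) := by ring
      _ ≤ X * 1 := mul_le_mul_of_nonneg_left ev5 hX0
      _ = X := mul_one X
  have hcard : ((univ.filter fun π : I → Equiv.Perm (Fin N) =>
      ¬ ((1 - 1 / (k : ℝ)) ^ (Nat.card (Lift s t π).edgeSet) *
          ((k : ℝ) * (1 - θ)) ^ (N * Fintype.card V) ≤
        (Nat.card ((Lift s t π).Coloring (Fin (k + 4))) : ℝ))).card : ℝ) ≤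
      B1.card + B2.card + B3.card := by
    have h1 := (card_le_card hsubset).trans (card_union_le _ _)
    have h2 := card_union_le B1 B2
    have h3 := h1.trans (Nat.add_le_add_right h2 _)
    exact_mod_cast h3
  set ν : ℝ := (N : ℝ) ^ (1 / 3 : ℝ) with hν
  have hν0 : 0 < ν := Real.rpow_pos_of_pos hNpos _
  have b1 : ν * B1.card ≤ F / 3 := by
    calc ν * B1.card ≤ ν * (F * (T ^ K * Real.exp (-(c * (N : ℝ) ^ (1 / 5 : ℝ))))) :=
          mul_le_mul_of_nonneg_left hB1c hν0.le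
      _ = F * (ν * (T ^ K * Real.exp (-(c * (N : ℝ) ^ (1 / 5 : ℝ))))) := by ring
      _ ≤ F * (1 / 3) := mul_le_mul_of_nonneg_left ev2 hF0.le
      _ = F / 3 := by ring
  have b2 : ν * B2.card ≤ F / 3 := by
    have h1 : (N : ℝ) * (ν * B2.card) ≤ N * (F / 3) := by
      calc (N : ℝ) * (ν * B2.card) = ν * (N * B2.card) := by ring
        _ ≤ ν * (C₁ * (m : ℝ) * F) := mul_le_mul_of_nonneg_left hB2c hν0.le
        _ = (ν * (C₁ * (m : ℝ))) * F := by ring
        _ ≤ (N / 3) * F := mul_le_mul_of_nonneg_right ev3 hF0.le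
        _ = _ := by ring
    exact le_of_mul_le_mul_left h1 hNpos
  have hD₀pos : (0 : ℝ) < D₀ := by
    have : 0 < D₀ := Nat.ceil_pos.2 (Real.rpow_pos_of_pos hNpos _)
    exact_mod_cast this
  have b3 : ν * B3.card ≤ F / 3 := by
    have h1 : (D₀ : ℝ) * (ν * B3.card) ≤ D₀ * (F / 3) := by
      calc (D₀ : ℝ) * (ν * B3.card) = ν * (D₀ * B3.card) := by ring
        _ ≤ ν * (C₃ * F) := mul_le_mul_of_nonneg_left hB3c hν0.le
        _ = (ν * C₃) * F := by ring
        _ ≤ (D₀ / 3) * F := mul_le_mul_of_nonneg_right ev4 hF0.le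
        _ = _ := by ring
    exact le_of_mul_le_mul_left h1 hD₀pos
  calc ν * _ ≤ ν * ((B1.card : ℝ) + B2.card + B3.card) := mul_le_mul_of_nonneg_left hcard hν0.le
    _ = ν * B1.card + ν * B2.card + ν * B3.card := by ring
    _ ≤ F / 3 + F / 3 + F / 3 := by linarith
    _ = F := by ring

end Pool.Agent.N404.LF
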