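import Pool.Agent.N404.LF.Mom2

set_option autoImplicit false

/-! From a colouring of a nearby lift to a colouring of the lift. -/

namespace Pool.Agent.N404.LF

open Finset Classical

/-- extension of a permutation by the identity -/
noncomputable def ext {N' N : ℕ} (h : N' ≤ N) (π : Equiv.Perm (Fin N')) : Equiv.Perm (Fin N) :=
  π.viaFintypeEmbedding (Fin.castLEEmb h)

theorem ext_apply {N' N : ℕ} (h : N' ≤ N) (π : Equiv.Perm (Fin N')) (a : Fin N') :
    ext h π (Fin.castLE h a) = Fin.castLE h (π a) := by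
  have := Equiv.Perm.viaFintypeEmbedding_apply_image π (Fin.castLEEmb h) a
  exact this

theorem ext_inj {N' N : ℕ} (h : N' ≤ N) : Function.Injective (ext h) := by
  intro π π' hp
  ext a
  have h1 := ext_apply h π a
  rw [hp, ext_apply] at h1
  have := Fin.castLE_injective h h1
  rw [this]

variable {V I : Type} [Fintype V] [Fintype I]

/-- the exceptional vertices -/
noncomputable def Uset (s : I → V) {N' N : ℕ} (h : N' ≤ N) (π : I → Equiv.Perm (Fin N))
    (π₀ : I → Equiv.Perm (Fin N')) : Finset (V × Fin N) :=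
  ((univ.filter fun p : I × Fin N => π p.1 p.2 ≠ ext h (π₀ p.1) p.2).image
    fun p => (s p.1, p.2)) ∪ (univ.filter fun x : V × Fin N => N' ≤ x.2.val)

theorem card_Uset (s : I → V) {N' N : ℕ} (h : N' ≤ N) (π : I → Equiv.Perm (Fin N))
    (π₀ : I → Equiv.Perm (Fin N')) :
    (Uset s h π π₀).card ≤ hd π (fun i => ext h (π₀ i)) + Fintype.card V * (N - N') := by
  unfold Uset
  refine (card_union_le _ _).trans (Nat.add_le_add ?_ ?_)
  · refine (Finset.card_image_le (f := fun p : I × Fin N => (s p.1, p.2))).trans (le_of_eq ?_)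
    unfold hd
    congr
  · have h1 : (univ.filter fun x : V × Fin N => N' ≤ x.2.val) =
        (univ : Finset V) ×ˢ (univ.filter fun a : Fin N => N' ≤ a.val) := by
      ext x
      simp
    rw [h1, card_product, card_univ]
    refine Nat.mul_le_mul_left _ ?_
    have h2 : (univ.filter fun a : Fin N => N' ≤ a.val).card ≤ (Finset.Ico N' N).card := by
      refine Finset.card_le_card_of_injOn (fun a => a.val) ?_ ?_
      · intro a ha
        rw [mem_coe, Finset.mem_Ico]
        exact ⟨(mem_filter.1 (mem_coe.1 ha)).2, a.2⟩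
      · intro a _ b _ hab
        exact Fin.ext hab
    rwa [Nat.card_Ico] at h2

theorem mem_Uset (s : I → V) {N' N : ℕ} (h : N' ≤ N) (π : I → Equiv.Perm (Fin N))
    (π₀ : I → Equiv.Perm (Fin N')) (x : V × Fin N) : x ∈ Uset s h π π₀ ↔
      (∃ i a, π i a ≠ ext h (π₀ i) a ∧ (s i, a) = x) ∨ N' ≤ x.2.val := by
  unfold Uset
  rw [mem_union, mem_image]
  constructor
  · rintro (⟨p, hp, hpx⟩ | hx)
    · exact Or.inl ⟨p.1, p.2, (mem_filter.1 hp).2, hpx⟩
    · exact Or.inr (mem_filter.1 hx).2
  · rintro (⟨i, a, hp, hpx⟩ | hx)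
    · exact Or.inl ⟨(i, a), mem_filter.2 ⟨mem_univ _, hp⟩, hpx⟩
    · exact Or.inr (mem_filter.2 ⟨mem_univ _, hx⟩)

variable [DecidableEq V]

theorem count_ext (s t : I → V) {k N' N : ℕ} (hk : 1 ≤ k) (h : N' ≤ N)
    (π : I → Equiv.Perm (Fin N)) (π₀ : I → Equiv.Perm (Fin N')) (c : V × Fin N → Fin 4)
    (hc : ∀ i a, (s i, a) ∈ Uset s h π π₀ → (t i, π i a) ∈ Uset s h π π₀ →
      (s i, a) ≠ (t i, π i a) → c (s i, a) ≠ c (t i, π i a)) :
    (cols s t k π₀).card ≤ Nat.card ((Lift s t π).Coloring (Fin (k + 4))) *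
      k ^ (Uset s h π π₀).card := by
  set U := Uset s h π π₀ with hU
  have hout : ∀ x : V × Fin N, x ∉ U → x.2.val < N' := by
    intro x hx
    by_contra hlt
    apply hx
    exact (mem_Uset s h π π₀ x).2 (Or.inr (not_lt.1 hlt))
  have hout2 : ∀ i a, (s i, a) ∉ U → π i a = ext h (π₀ i) a := by
    intro i a hx
    by_contra hne
    apply hx
    exact (mem_Uset s h π π₀ _).2 (Or.inl ⟨i, a, hne, rfl⟩)
  let ex : (V → Fin N' → Fin k) → V × Fin N → Fin k := fun σ x =>
    if hx : x.2.val < N' then σ x.1 ⟨x.2.val, hx⟩ else ⟨0, hk⟩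
  have hex : ∀ σ v a, ex σ (v, Fin.castLE h a) = σ v a := by
    intro σ v a
    have : (Fin.castLE h a).val < N' := a.2
    simp only [ex, this, dif_pos]
    rfl
  have key : ∀ σ : V → Fin N' → Fin k, (∀ i a, σ (s i) a ≠ σ (t i) (π₀ i a)) → ∀ i a,
      (s i, a) ≠ (t i, π i a) →
      (if (s i, a) ∈ U then Fin.natAdd k (c (s i, a)) else Fin.castAdd 4 (ex σ (s i, a))) ≠
      (if (t i, π i a) ∈ U then Fin.natAdd k (c (t i, π i a)) else
        Fin.castAdd 4 (ex σ (t i, π i a))) := by
    intro σ hσ i a hne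
    by_cases h1 : (s i, a) ∈ U <;> by_cases h2 : (t i, π i a) ∈ U
    · rw [if_pos h1, if_pos h2]
      intro heq
      exact hc i a h1 h2 hne (Fin.natAdd_injective _ _ heq)
    · rw [if_pos h1, if_neg h2]
      intro heq
      have := congrArg Fin.val heq
      simp only [Fin.val_natAdd, Fin.val_castAdd] at this
      have h3 := (ex σ (t i, π i a)).2
      omega
    · rw [if_neg h1, if_pos h2]
      intro heq
      have := congrArg Fin.val heq
      simp only [Fin.val_natAdd, Fin.val_castAdd] at this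
      have h3 := (ex σ (s i, a)).2
      omega
    · rw [if_neg h1, if_neg h2]
      intro heq
      have heq' := Fin.castAdd_injective _ _ heq
      have ha : a.val < N' := hout _ h1
      have e1 : a = Fin.castLE h ⟨a.val, ha⟩ := rfl
      have e2 : π i a = Fin.castLE h (π₀ i ⟨a.val, ha⟩) := by
        rw [hout2 i a h1]
        conv_lhs => rw [e1]
        exact ext_apply h (π₀ i) ⟨a.val, ha⟩
      rw [e2, hex] at heq'
      rw [show ((s i, a) : V × Fin N) = (s i, Fin.castLE h ⟨a.val, ha⟩) from rfl, hex] at heq'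
      exact hσ i _ heq'
  let Φ : {σ // σ ∈ cols s t k π₀} → (Lift s t π).Coloring (Fin (k + 4)) := fun σ =>
    SimpleGraph.Coloring.mk (fun x => if x ∈ U then Fin.natAdd k (c x) else
      Fin.castAdd 4 (ex σ.1 x)) (by
      have hσ := (mem_cols s t π₀ σ.1).1 σ.2
      rintro ⟨v, a⟩ ⟨w, b⟩ hadj
      rw [Lift, SimpleGraph.fromRel_adj] at hadj
      obtain ⟨hne, hadj⟩ := hadj
      rcases hadj with ⟨i, h1, h2, h3⟩ | ⟨i, h1, h2, h3⟩
      · simp only at h1 h2 h3
        subst h1 h2 h3
        exact key σ.1 hσ i a hne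
      · simp only at h1 h2 h3
        subst h1 h2 h3
        exact (key σ.1 hσ i b hne.symm).symm)
  have hΦ : ∀ σ x, Φ σ x = if x ∈ U then Fin.natAdd k (c x) else Fin.castAdd 4 (ex σ.1 x) :=
    fun σ x => rfl
  let Ψ : {σ // σ ∈ cols s t k π₀} → (Lift s t π).Coloring (Fin (k + 4)) × (U → Fin k) :=
    fun σ => (Φ σ, fun x => ex σ.1 x.1)
  have hinj : Function.Injective Ψ := by
    intro σ τ hστ
    apply Subtype.ext
    funext v a
    have h1 : Φ σ = Φ τ := (Prod.mk.inj hστ).1
    have h2 : (fun x : U => ex σ.1 x.1) = fun x : U => ex τ.1 x.1 := (Prod.mk.inj hστ).2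
    by_cases hx : (v, Fin.castLE h a) ∈ U
    · have := congrFun h2 ⟨(v, Fin.castLE h a), hx⟩
      simp only [hex] at this
      exact this
    · have h3 : Φ σ (v, Fin.castLE h a) = Φ τ (v, Fin.castLE h a) := by rw [h1]
      rw [hΦ, hΦ, if_neg hx, if_neg hx] at h3
      have := Fin.castAdd_injective _ _ h3
      rwa [hex, hex] at this
  have hfin : Finite ((Lift s t π).Coloring (Fin (k + 4))) :=
    Finite.of_injective (fun C : (Lift s t π).Coloring (Fin (k + 4)) => (C : V × Fin N → _))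
      DFunLike.coe_injective
  have h4 := Nat.card_le_card_of_injective Ψ hinj
  rw [Nat.card_prod, Nat.card_eq_fintype_card, Fintype.card_coe] at h4
  refine h4.trans (le_of_eq ?_)
  congr 1
  rw [Nat.card_eq_fintype_card, Fintype.card_fun, Fintype.card_fin, Fintype.card_coe]

end Pool.Agent.N404.LF
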