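import Pool.Agent.N404.LF.Stm

set_option autoImplicit false

namespace Pool.Agent.N404.LF

theorem fact_up : ∀ n : ℕ, (n + 1 : ℕ).factorial * Real.exp ((n + 1 : ℕ) : ℝ) ≤
    Real.exp 1 * ((n + 1 : ℕ) : ℝ) * ((n + 1 : ℕ) : ℝ) ^ (n + 1) := by
  intro n
  induction n with
  | zero => norm_num
  | succ n ih =>
    have hn : (0 : ℝ) < ((n + 1 : ℕ) : ℝ) := by positivity
    set m : ℝ := ((n + 1 : ℕ) : ℝ) with hm
    have hm1 : ((n + 1 + 1 : ℕ) : ℝ) = m + 1 := by rw [hm]; push_cast; ring
    rw [Nat.factorial_succ (n + 1)]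
    rw [hm1, Nat.cast_mul, hm1, Real.exp_add]
    have key : Real.exp 1 * m ^ (n + 1 + 1) ≤ (m + 1) ^ (n + 1 + 1) := by
      have h1 : 1 ≤ ((n + 1 + 1 : ℕ) : ℝ) * Real.log ((m + 1) / m) := by
        have h2 := Real.one_sub_inv_le_log_of_pos (show 0 < (m + 1) / m by positivity)
        have h3 : 1 - ((m + 1) / m)⁻¹ = 1 / (m + 1) := by
          field_simp
          ring
        rw [h3] at h2
        rw [hm1]
        calc (1 : ℝ) = (m + 1) * (1 / (m + 1)) := by field_simp
          _ ≤ _ := mul_le_mul_of_nonneg_left h2 (by positivity)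
      have h4 : Real.exp 1 ≤ ((m + 1) / m) ^ (n + 1 + 1) := by
        have h5 := Real.exp_le_exp.2 h1
        rw [Real.exp_nat_mul, Real.exp_log (by positivity)] at h5
        exact h5
      rw [div_pow, le_div_iff₀ (by positivity)] at h4
      exact h4
    calc (m + 1) * ((n + 1).factorial : ℝ) * (Real.exp m * Real.exp 1)
        = (m + 1) * Real.exp 1 * ((n + 1).factorial * Real.exp m) := by ring
      _ ≤ (m + 1) * Real.exp 1 * (Real.exp 1 * m * m ^ (n + 1)) :=
          mul_le_mul_of_nonneg_left ih (by positivity)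
      _ = Real.exp 1 * (m + 1) * (Real.exp 1 * m ^ (n + 1 + 1)) := by ring
      _ ≤ _ := mul_le_mul_of_nonneg_left key (by positivity)

theorem proof_FACT : S_FACT := by
  intro n
  constructor
  · have h := Real.pow_div_factorial_le_exp (n : ℝ) (Nat.cast_nonneg n) n
    rw [div_le_iff₀ (by positivity)] at h
    linarith [mul_comm (Real.exp (n : ℝ)) (n.factorial : ℝ)]
  · rcases n with _ | n
    · norm_num
    · refine (fact_up n).trans ?_
      have h1 := Real.exp_one_lt_d9
      have h2 : (0 : ℝ) ≤ ((n + 1 : ℕ) : ℝ) := by positivity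
      refine mul_le_mul_of_nonneg_right ?_ (by positivity)
      nlinarith

end Pool.Agent.N404.LF
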