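import Pool.Agent.N404.LF.Pair
import Pool.Agent.N404.LF.Fact

set_option autoImplicit false

/-! The second moment. -/

namespace Pool.Agent.N404.LF

open Finset Classical

theorem card_pi_filter {I P : Type} [Fintype I] [DecidableEq I] [Fintype P] (Q : I → P → Prop) :
    (univ.filter fun π : I → P => ∀ i, Q i (π i)).card = ∏ i, (univ.filter (Q i)).card := by
  rw [← Fintype.card_piFinset]
  congr 1
  ext π
  simp

theorem card_pi_perm (I : Type) [Fintype I] [DecidableEq I] (N : ℕ) :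
    Fintype.card (I → Equiv.Perm (Fin N)) = N.factorial ^ Fintype.card I := by
  rw [Fintype.card_fun, Fintype.card_perm, Fintype.card_fin]

/-- Paley-Zygmund -/
theorem pz {Ω : Type} [Fintype Ω] (Y : Ω → ℝ) (hY : ∀ ω, 0 ≤ Y ω) :
    (∑ ω, Y ω) ^ 2 ≤ 4 * ((univ.filter fun ω => ∑ ω, Y ω ≤ 2 * Fintype.card Ω * Y ω).card : ℝ) *
      ∑ ω, Y ω ^ 2 := by
  set S := ∑ ω, Y ω with hS
  set A := univ.filter fun ω => S ≤ 2 * Fintype.card Ω * Y ω with hA
  rcases isEmpty_or_nonempty Ω with hΩ | hΩ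
  · simp [hS]
  have hc : (0 : ℝ) < Fintype.card Ω := by exact_mod_cast Fintype.card_pos
  have h1 : S / 2 ≤ ∑ ω ∈ A, Y ω := by
    have h2 : ∑ ω ∈ Aᶜ, Y ω ≤ S / 2 := by
      have h3 : ∀ ω ∈ Aᶜ, Y ω ≤ S / (2 * Fintype.card Ω) := by
        intro ω hω
        rw [mem_compl, hA, mem_filter, not_and] at hω
        have := hω (mem_univ _)
        rw [le_div_iff₀ (by positivity)]
        push Not at this
        linarith
      refine (Finset.sum_le_sum h3).trans ?_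
      rw [Finset.sum_const, nsmul_eq_mul]
      have h4 : ((Aᶜ).card : ℝ) ≤ Fintype.card Ω := by
        exact_mod_cast card_le_univ _
      have hS0 : 0 ≤ S := Finset.sum_nonneg fun ω _ => hY ω
      calc ((Aᶜ).card : ℝ) * (S / (2 * Fintype.card Ω)) ≤
          Fintype.card Ω * (S / (2 * Fintype.card Ω)) :=
            mul_le_mul_of_nonneg_right h4 (by positivity)
        _ = S / 2 := by field_simp
    have h5 : ∑ ω ∈ A, Y ω + ∑ ω ∈ Aᶜ, Y ω = S := Finset.sum_add_sum_compl A Y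
    linarith
  have h6 : (∑ ω ∈ A, Y ω) ^ 2 ≤ A.card * ∑ ω ∈ A, Y ω ^ 2 := sq_sum_le_card_mul_sum_sq
  have h7 : ∑ ω ∈ A, Y ω ^ 2 ≤ ∑ ω, Y ω ^ 2 :=
    Finset.sum_le_sum_of_subset_of_nonneg (subset_univ _) fun _ _ _ => sq_nonneg _
  have hS0 : 0 ≤ S := Finset.sum_nonneg fun ω _ => hY ω
  have h8 : (S / 2) ^ 2 ≤ (∑ ω ∈ A, Y ω) ^ 2 := pow_le_pow_left₀ (by positivity) h1 2
  have h9 : (A.card : ℝ) * ∑ ω ∈ A, Y ω ^ 2 ≤ A.card * ∑ ω, Y ω ^ 2 :=
    mul_le_mul_of_nonneg_left h7 (Nat.cast_nonneg _)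
  nlinarith

/-- `(s!)^k k^N ≤ N! (3(N+1))^k` for `N = k s`. -/
theorem fact_pow {k s N : ℕ} (hN : N = k * s) :
    ((s.factorial : ℝ) ^ k) * (k : ℝ) ^ N ≤ N.factorial * (3 * ((N : ℝ) + 1)) ^ k := by
  have hF := proof_FACT
  rcases Nat.eq_zero_or_pos k with rfl | hk
  · simp [hN]
  have h1 : ((s.factorial : ℝ) * Real.exp s) ^ k ≤ (3 * ((N : ℝ) + 1) * (s : ℝ) ^ s) ^ k := by
    refine pow_le_pow_left₀ (by positivity) ((hF s).2.trans ?_) k
    have : (s : ℝ) ≤ N := by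
      rw [hN]; push_cast
      have : (1 : ℝ) ≤ k := by exact_mod_cast hk
      nlinarith [Nat.cast_nonneg (α := ℝ) s]
    gcongr
  have h2 := (hF N).1
  have e1 : ((s.factorial : ℝ) * Real.exp s) ^ k = (s.factorial : ℝ) ^ k * Real.exp N := by
    rw [mul_pow, ← Real.exp_nat_mul, hN]; push_cast; ring_nf
  have e2 : (3 * ((N : ℝ) + 1) * (s : ℝ) ^ s) ^ k * (k : ℝ) ^ N =
      (3 * ((N : ℝ) + 1)) ^ k * (N : ℝ) ^ N := by
    have : (N : ℝ) = k * s := by rw [hN]; push_cast; ring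
    have h3 : (N : ℝ) ^ N = (k : ℝ) ^ N * ((s : ℝ) ^ s) ^ k := by
      conv_lhs => rw [this, mul_pow]
      rw [← pow_mul, mul_comm s k, ← hN]
    rw [mul_pow, h3]
    ring
  have hexp : 0 < Real.exp (N : ℝ) := Real.exp_pos _
  have h4 : (s.factorial : ℝ) ^ k * (k : ℝ) ^ N * Real.exp N ≤
      (N.factorial * (3 * ((N : ℝ) + 1)) ^ k) * Real.exp N := by
    calc (s.factorial : ℝ) ^ k * (k : ℝ) ^ N * Real.exp N
        = ((s.factorial : ℝ) * Real.exp s) ^ k * (k : ℝ) ^ N := by rw [e1]; ring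
      _ ≤ (3 * ((N : ℝ) + 1) * (s : ℝ) ^ s) ^ k * (k : ℝ) ^ N :=
          mul_le_mul_of_nonneg_right h1 (by positivity)
      _ = (3 * ((N : ℝ) + 1)) ^ k * (N : ℝ) ^ N := e2
      _ ≤ (3 * ((N : ℝ) + 1)) ^ k * (N.factorial * Real.exp N) :=
          mul_le_mul_of_nonneg_left h2 (by positivity)
      _ = _ := by ring
  exact le_of_mul_le_mul_right h4 hexp

/-- grouping permutations by `f ∘ x` -/
theorem sum_perm_le {N k s : ℕ} (f : Fin N → Fin k) (hf : ∀ c, cnt f c = s)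
    (h : (Fin N → Fin k) → ℝ) (hh : ∀ g, 0 ≤ h g) :
    ∑ x : Equiv.Perm (Fin N), h (f ∘ x) ≤ (s.factorial : ℝ) ^ k * ∑ g, h g := by
  have h1 : ∑ x : Equiv.Perm (Fin N), h (f ∘ x) =
      ∑ g : Fin N → Fin k, ∑ x ∈ univ.filter (fun x : Equiv.Perm (Fin N) => f ∘ x = g),
        h (f ∘ x) :=
    (Finset.sum_fiberwise_of_maps_to (fun _ _ => mem_univ _) _).symm
  rw [h1, Finset.mul_sum]
  refine Finset.sum_le_sum fun g _ => ?_
  have h2 : ∑ x ∈ univ.filter (fun x : Equiv.Perm (Fin N) => f ∘ x = g), h (f ∘ x) =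
      ((univ.filter (fun x : Equiv.Perm (Fin N) => f ∘ x = g)).card : ℝ) * h g := by
    rw [← nsmul_eq_mul, ← Finset.sum_const]
    refine Finset.sum_congr rfl fun x hx => ?_
    rw [(mem_filter.1 hx).2]
  rw [h2]
  refine mul_le_mul_of_nonneg_right ?_ (hh g)
  exact_mod_cast fib_card_bal f g hf

theorem bal_of {N k s : ℕ} (hN : N = k * s) {f : Fin N → Fin k} (hf : ∀ c, cnt f c = s) : Bal f := by
  intro c
  rw [hf c, Fintype.card_fin, hN]

theorem bal_comp {N k : ℕ} {f : Fin N → Fin k} (hf : Bal f) (x : Equiv.Perm (Fin N)) :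
    Bal (f ∘ x) := by
  intro c
  rw [cnt_comp]
  exact hf c

theorem one_fibre (hFIB : S_FIB) {N k s : ℕ} (hk : 2 ≤ k) (hN : N = k * s) (D : ℝ)
    (hD : D ≤ 2 * (k * Real.log k - k + 1)) (f F : Fin N → Fin k) (hf : ∀ c, cnt f c = s)
    (hF : Bal F) :
    ∑ x : Equiv.Perm (Fin N), Real.exp (N * (D / 2 * ((k : ℝ) / (k - 1)) ^ 2) * ov F (f ∘ x)) ≤
      N.factorial * (3 * ((N : ℝ) + 1)) ^ (k + k ^ 2) := by
  have h1 := sum_perm_le f hf
    (fun g => Real.exp (N * (D / 2 * ((k : ℝ) / (k - 1)) ^ 2) * ov F g)) (fun g => (Real.exp_pos _).le)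
  refine h1.trans ?_
  have h2 := hFIB k D hk hD (Fin N) F hF
  rw [Fintype.card_fin] at h2
  calc (s.factorial : ℝ) ^ k * ∑ g : Fin N → Fin k,
        Real.exp (N * (D / 2 * ((k : ℝ) / (k - 1)) ^ 2) * ov F g)
      ≤ (s.factorial : ℝ) ^ k * (((N : ℝ) + 1) ^ (k ^ 2) * (k : ℝ) ^ N) :=
        mul_le_mul_of_nonneg_left h2 (by positivity)
    _ = ((s.factorial : ℝ) ^ k * (k : ℝ) ^ N) * ((N : ℝ) + 1) ^ (k ^ 2) := by ring
    _ ≤ (N.factorial * (3 * ((N : ℝ) + 1)) ^ k) * (3 * ((N : ℝ) + 1)) ^ (k ^ 2) := by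
        refine mul_le_mul (fact_pow hN) ?_ (by positivity) (by positivity)
        refine pow_le_pow_left₀ (by positivity) ?_ _
        nlinarith [Nat.cast_nonneg (α := ℝ) N]
    _ = _ := by rw [pow_add]; ring

section

variable {V I : Type} [Fintype V] [DecidableEq V] [Fintype I] [DecidableEq I] (s t : I → V)
  {N k : ℕ}

/-- `f ∘ ρ` is a proper colouring of the lift given by `π` -/
def Good (f : Fin N → Fin k) (ρ : V → Equiv.Perm (Fin N)) (π : I → Equiv.Perm (Fin N)) : Prop :=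
  ∀ i a, f (ρ (s i) a) ≠ f (ρ (t i) (π i a))

omit [Fintype V] [DecidableEq V] in
theorem first (f : Fin N → Fin k) (ρ : V → Equiv.Perm (Fin N)) :
    (univ.filter fun π : I → Equiv.Perm (Fin N) => Good s t f ρ π).card =
      (univ.filter fun π : Equiv.Perm (Fin N) => ∀ y, f y ≠ f (π y)).card ^ Fintype.card I := by
  have h1 := card_pi_filter (I := I)
    (fun i (π : Equiv.Perm (Fin N)) => ∀ a, f (ρ (s i) a) ≠ f (ρ (t i) (π a)))
  have h2 : ∀ i ∈ (univ : Finset I), (univ.filter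
      fun π : Equiv.Perm (Fin N) => ∀ a, f (ρ (s i) a) ≠ f (ρ (t i) (π a))).card =
      (univ.filter fun π : Equiv.Perm (Fin N) => ∀ y, f y ≠ f (π y)).card := by
    intro i _
    have := card_sub f f (fun c d => c ≠ d) (ρ (s i)) (ρ (t i))
    convert this
  rw [Finset.prod_congr rfl fun i _ => by convert h2 i (mem_univ i), Finset.prod_const,
    card_univ] at h1
  rw [← h1]
  unfold Good
  congr

omit [Fintype V] [DecidableEq V] in
theorem second (hUP : S_UP) (hN : 1 ≤ N) (hk : 2 ≤ k) (f : Fin N → Fin k) (hf : Bal f)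
    (ρ ρ' : V → Equiv.Perm (Fin N)) :
    ((univ.filter fun π : I → Equiv.Perm (Fin N) => Good s t f ρ π ∧ Good s t f ρ' π).card : ℝ) ≤
      ((N.factorial : ℝ) * (3 * ((N : ℝ) + 1)) ^ (2 * k ^ 2) * (1 - 1 / (k : ℝ)) ^ (2 * N)) ^
        Fintype.card I *
      ∏ i, Real.exp (N * (((k : ℝ) / (k - 1)) ^ 2 / 2) *
        (ov (f ∘ ρ (s i)) (f ∘ ρ' (s i)) + ov (f ∘ ρ (t i)) (f ∘ ρ' (t i)))) := by
  have h1 : (univ.filter fun π : I → Equiv.Perm (Fin N) => Good s t f ρ π ∧ Good s t f ρ' π) =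
      univ.filter fun π : I → Equiv.Perm (Fin N) => ∀ i, ∀ a,
        R2 (f (ρ (s i) a), f (ρ' (s i) a)) (f (ρ (t i) (π i a)), f (ρ' (t i) (π i a))) := by
    ext π
    rw [mem_filter, mem_filter]
    constructor
    · rintro ⟨_, h, h'⟩
      exact ⟨mem_univ _, fun i a => ⟨h i a, h' i a⟩⟩
    · rintro ⟨_, h⟩
      exact ⟨mem_univ _, fun i a => (h i a).1, fun i a => (h i a).2⟩
  have h3 := card_pi_filter (I := I) (fun i (π : Equiv.Perm (Fin N)) => ∀ a,
        R2 (f (ρ (s i) a), f (ρ' (s i) a)) (f (ρ (t i) (π a)), f (ρ' (t i) (π a))))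
  have h4 : ((univ.filter fun π : I → Equiv.Perm (Fin N) =>
      Good s t f ρ π ∧ Good s t f ρ' π).card : ℝ) = ∏ i, ((univ.filter
        fun π : Equiv.Perm (Fin N) => ∀ a,
        R2 (f (ρ (s i) a), f (ρ' (s i) a)) (f (ρ (t i) (π a)), f (ρ' (t i) (π a)))).card : ℝ) := by
    rw [h1, ← Nat.cast_prod]
    congr 1
    convert h3
  rw [h4]
  have h2 : ∀ i ∈ (univ : Finset I), ((univ.filter fun π : Equiv.Perm (Fin N) => ∀ a,
        R2 (f (ρ (s i) a), f (ρ' (s i) a)) (f (ρ (t i) (π a)), f (ρ' (t i) (π a)))).card : ℝ) ≤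
      ((N.factorial : ℝ) * (3 * ((N : ℝ) + 1)) ^ (2 * k ^ 2) * (1 - 1 / (k : ℝ)) ^ (2 * N)) *
      Real.exp (N * (((k : ℝ) / (k - 1)) ^ 2 / 2) *
        (ov (f ∘ ρ (s i)) (f ∘ ρ' (s i)) + ov (f ∘ ρ (t i)) (f ∘ ρ' (t i)))) := by
    intro i _
    exact pair_bound hUP hN hk (f ∘ ρ (s i)) (f ∘ ρ' (s i)) (f ∘ ρ (t i)) (f ∘ ρ' (t i))
      (bal_comp hf _) (bal_comp hf _) (bal_comp hf _) (bal_comp hf _)
  refine (Finset.prod_le_prod (fun i _ => Nat.cast_nonneg _) h2).trans (le_of_eq ?_)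
  rw [Finset.prod_mul_distrib, Finset.prod_const, card_univ]

omit [DecidableEq I] in
theorem prod_edges_le (D : ℝ) (z : V → ℝ) (hz : ∀ v, 0 ≤ z v)
    (hdeg : ∀ v, (((univ.filter fun i => s i = v).card + (univ.filter fun i => t i = v).card : ℕ) : ℝ)
      ≤ D) :
    ∏ i, Real.exp (N * (((k : ℝ) / (k - 1)) ^ 2 / 2) * (z (s i) + z (t i))) ≤
      ∏ v, Real.exp (N * (D / 2 * ((k : ℝ) / (k - 1)) ^ 2) * z v) := by
  rw [← Real.exp_sum, ← Real.exp_sum]
  refine Real.exp_le_exp.2 ?_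
  rw [← Finset.mul_sum, Finset.sum_add_distrib]
  have h1 : ∀ u : I → V, ∑ i, z (u i) = ∑ v, ((univ.filter fun i => u i = v).card : ℝ) * z v := by
    intro u
    rw [← Finset.sum_fiberwise_of_maps_to (s := (univ : Finset I)) (t := (univ : Finset V))
      (g := u) (fun _ _ => mem_univ _)]
    refine Finset.sum_congr rfl fun v _ => ?_
    rw [← nsmul_eq_mul, ← Finset.sum_const]
    refine Finset.sum_congr rfl fun i hi => ?_
    rw [(mem_filter.1 hi).2]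
  rw [h1 s, h1 t, ← Finset.sum_add_distrib, Finset.mul_sum]
  refine Finset.sum_le_sum fun v _ => ?_
  have h2 := hdeg v
  push_cast at h2
  have h3 : (0 : ℝ) ≤ N * (((k : ℝ) / (k - 1)) ^ 2 / 2) * z v := mul_nonneg (by positivity) (hz v)
  have h4 := mul_le_mul_of_nonneg_left h2 h3
  calc (N : ℝ) * (((k : ℝ) / (k - 1)) ^ 2 / 2) * (((univ.filter fun i => s i = v).card : ℝ) * z v +
        ((univ.filter fun i => t i = v).card : ℝ) * z v)
      = (N : ℝ) * (((k : ℝ) / (k - 1)) ^ 2 / 2) * z v *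
        (((univ.filter fun i => s i = v).card : ℝ) + ((univ.filter fun i => t i = v).card : ℝ)) := by
        ring
    _ ≤ N * (((k : ℝ) / (k - 1)) ^ 2 / 2) * z v * D := h4
    _ = _ := by ring

end

end Pool.Agent.N404.LF
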