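import Pool.Agent.N404.LF.Mom

set_option autoImplicit false

/-! The second moment: assembly. -/

namespace Pool.Agent.N404.LF

open Finset Classical

theorem mem_cols {V I : Type} [Fintype V] [DecidableEq V] (s t : I → V) {N k : ℕ}
    (π : I → Equiv.Perm (Fin N)) (σ : V → Fin N → Fin k) :
    σ ∈ cols s t k π ↔ ∀ i a, σ (s i) a ≠ σ (t i) (π i a) := by
  unfold cols
  exact Finset.mem_filter.trans ⟨fun h => h.2, fun h => ⟨Finset.mem_univ _, h⟩⟩

section

variable {V I : Type} [Fintype V] [DecidableEq V] [Fintype I] [DecidableEq I] (s t : I → V)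
  {N k : ℕ}

/-- the number of the good `ρ` -/
noncomputable def Y (f : Fin N → Fin k) (π : I → Equiv.Perm (Fin N)) : ℝ :=
  ((univ.filter fun ρ : V → Equiv.Perm (Fin N) => Good s t f ρ π).card : ℝ)

theorem sum_Y (f : Fin N → Fin k) :
    ∑ π : I → Equiv.Perm (Fin N), Y s t f π = (N.factorial : ℝ) ^ Fintype.card V *
      ((univ.filter fun π : Equiv.Perm (Fin N) => ∀ y, f y ≠ f (π y)).card : ℝ) ^ Fintype.card I := by
  have h1 : ∀ π : I → Equiv.Perm (Fin N), Y s t f π =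
      ∑ ρ : V → Equiv.Perm (Fin N), if Good s t f ρ π then (1 : ℝ) else 0 := by
    intro π
    rw [Y, Finset.sum_boole]
  simp only [h1]
  rw [Finset.sum_comm]
  have h2 : ∀ ρ : V → Equiv.Perm (Fin N), (∑ π : I → Equiv.Perm (Fin N),
      if Good s t f ρ π then (1 : ℝ) else 0) =
      ((univ.filter fun π : Equiv.Perm (Fin N) => ∀ y, f y ≠ f (π y)).card : ℝ) ^
        Fintype.card I := by
    intro ρ
    rw [Finset.sum_boole, first s t f ρ]
    push_cast
    rfl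
  simp only [h2]
  rw [Finset.sum_const, card_univ, card_pi_perm, nsmul_eq_mul]
  push_cast
  rfl

theorem sum_Y2 (hUP : S_UP) (hFIB : S_FIB) (hN : 1 ≤ N) (hk : 2 ≤ k) {m : ℕ} (hNm : N = k * m)
    (D : ℝ) (hD : D ≤ 2 * (k * Real.log k - k + 1))
    (hdeg : ∀ v, (((univ.filter fun i => s i = v).card + (univ.filter fun i => t i = v).card : ℕ) : ℝ)
      ≤ D) (f : Fin N → Fin k) (hf : ∀ c, cnt f c = m) :
    ∑ π : I → Equiv.Perm (Fin N), Y s t f π ^ 2 ≤
      ((N.factorial : ℝ) * (3 * ((N : ℝ) + 1)) ^ (2 * k ^ 2) * (1 - 1 / (k : ℝ)) ^ (2 * N)) ^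
        Fintype.card I * ((N.factorial : ℝ) ^ Fintype.card V *
        ((N.factorial : ℝ) * (3 * ((N : ℝ) + 1)) ^ (k + k ^ 2)) ^ Fintype.card V) := by
  have hbal : Bal f := bal_of hNm hf
  have h1 : ∀ π : I → Equiv.Perm (Fin N), Y s t f π ^ 2 =
      ∑ ρ : V → Equiv.Perm (Fin N), ∑ ρ' : V → Equiv.Perm (Fin N),
        if Good s t f ρ π ∧ Good s t f ρ' π then (1 : ℝ) else 0 := by
    intro π
    have h2 : Y s t f π = ∑ ρ : V → Equiv.Perm (Fin N), if Good s t f ρ π then (1 : ℝ) else 0 := by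
      rw [Y, Finset.sum_boole]
    rw [h2, sq, Finset.sum_mul_sum]
    refine Finset.sum_congr rfl fun ρ _ => Finset.sum_congr rfl fun ρ' _ => ?_
    by_cases h : Good s t f ρ π <;> by_cases h' : Good s t f ρ' π <;> simp [h, h']
  simp only [h1]
  have h3 : ∑ π : I → Equiv.Perm (Fin N), ∑ ρ : V → Equiv.Perm (Fin N),
      ∑ ρ' : V → Equiv.Perm (Fin N), (if Good s t f ρ π ∧ Good s t f ρ' π then (1 : ℝ) else 0) =
      ∑ ρ : V → Equiv.Perm (Fin N), ∑ ρ' : V → Equiv.Perm (Fin N),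
      ((univ.filter fun π : I → Equiv.Perm (Fin N) =>
        Good s t f ρ π ∧ Good s t f ρ' π).card : ℝ) := by
    rw [Finset.sum_comm]
    refine Finset.sum_congr rfl fun ρ _ => ?_
    rw [Finset.sum_comm]
    refine Finset.sum_congr rfl fun ρ' _ => ?_
    rw [Finset.sum_boole]
  rw [h3]
  set K1 := ((N.factorial : ℝ) * (3 * ((N : ℝ) + 1)) ^ (2 * k ^ 2) *
    (1 - 1 / (k : ℝ)) ^ (2 * N)) ^ Fintype.card I with hK1
  have hk0 : (0 : ℝ) < k := by positivity
  have hq : 0 ≤ 1 - 1 / (k : ℝ) := by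
    rw [sub_nonneg, div_le_one hk0]
    exact_mod_cast (by omega : 1 ≤ k)
  have hK10 : 0 ≤ K1 := by positivity
  set B := (N.factorial : ℝ) * (3 * ((N : ℝ) + 1)) ^ (k + k ^ 2) with hB
  have hrow : ∀ ρ : V → Equiv.Perm (Fin N), ∑ ρ' : V → Equiv.Perm (Fin N),
      ((univ.filter fun π : I → Equiv.Perm (Fin N) =>
        Good s t f ρ π ∧ Good s t f ρ' π).card : ℝ) ≤ K1 * B ^ Fintype.card V := by
    intro ρ
    have h4 : ∀ ρ' ∈ (univ : Finset (V → Equiv.Perm (Fin N))),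
        ((univ.filter fun π : I → Equiv.Perm (Fin N) =>
          Good s t f ρ π ∧ Good s t f ρ' π).card : ℝ) ≤
        K1 * ∏ v, Real.exp (N * (D / 2 * ((k : ℝ) / (k - 1)) ^ 2) *
          ov (f ∘ ρ v) (f ∘ ρ' v)) := by
      intro ρ' _
      refine (second s t hUP hN hk f hbal ρ ρ').trans ?_
      refine mul_le_mul_of_nonneg_left ?_ hK10
      exact prod_edges_le s t D (fun v => ov (f ∘ ρ v) (f ∘ ρ' v))
        (fun v => ov_nonneg hN (by omega) _ _ (bal_comp hbal _)) hdeg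
    refine (Finset.sum_le_sum h4).trans ?_
    rw [← Finset.mul_sum]
    refine mul_le_mul_of_nonneg_left ?_ hK10
    have h5 : ∑ ρ' : V → Equiv.Perm (Fin N), ∏ v, Real.exp (N * (D / 2 * ((k : ℝ) / (k - 1)) ^ 2) *
          ov (f ∘ ρ v) (f ∘ ρ' v)) = ∏ v, ∑ x : Equiv.Perm (Fin N),
          Real.exp (N * (D / 2 * ((k : ℝ) / (k - 1)) ^ 2) * ov (f ∘ ρ v) (f ∘ x)) := by
      rw [Finset.prod_univ_sum, Fintype.piFinset_univ]
    rw [h5]
    refine (Finset.prod_le_prod (fun v _ => Finset.sum_nonneg fun x _ => (Real.exp_pos _).le)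
      fun v _ => one_fibre hFIB hk hNm D hD f (f ∘ ρ v) hf (bal_comp hbal _)).trans (le_of_eq ?_)
    rw [Finset.prod_const, card_univ]
  refine (Finset.sum_le_sum fun ρ _ => hrow ρ).trans (le_of_eq ?_)
  rw [Finset.sum_const, card_univ, card_pi_perm, nsmul_eq_mul]
  push_cast
  ring

omit [Fintype I] [DecidableEq I] in
theorem Y_le_cols (f : Fin N → Fin k) {m : ℕ} (hf : ∀ c, cnt f c = m)
    (π : I → Equiv.Perm (Fin N)) :
    Y s t f π ≤ ((m.factorial : ℝ) ^ k) ^ Fintype.card V * ((cols s t k π).card : ℝ) := by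
  have h1 : (univ.filter fun ρ : V → Equiv.Perm (Fin N) => Good s t f ρ π).card ≤
      (cols s t k π).card * (m.factorial ^ k) ^ Fintype.card V := by
    refine Finset.card_le_mul_card_image_of_maps_to
      (f := fun ρ : V → Equiv.Perm (Fin N) => fun v => f ∘ ρ v) (t := cols s t k π) ?_ _ ?_ |>.trans
      (le_of_eq (mul_comm _ _))
    · intro ρ hρ
      rw [mem_cols]
      intro i a
      exact (mem_filter.1 hρ).2 i a
    · intro σ _
      have h2 : (((univ.filter fun ρ : V → Equiv.Perm (Fin N) => Good s t f ρ π)).filter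
          fun ρ => (fun v => f ∘ ρ v) = σ) ⊆
          Fintype.piFinset fun v => univ.filter fun θ : Equiv.Perm (Fin N) => f ∘ θ = σ v := by
        intro ρ hρ
        rw [Fintype.mem_piFinset]
        intro v
        rw [mem_filter]
        exact ⟨mem_univ _, congrFun (mem_filter.1 hρ).2 v⟩
      refine (card_le_card h2).trans ?_
      rw [Fintype.card_piFinset]
      refine (Finset.prod_le_prod' fun v _ => fib_card_bal f (σ v) hf).trans (le_of_eq ?_)
      rw [Finset.prod_const, card_univ]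
  have h2 : (((univ.filter fun ρ : V → Equiv.Perm (Fin N) => Good s t f ρ π).card : ℕ) : ℝ) ≤
      (((cols s t k π).card * (m.factorial ^ k) ^ Fintype.card V : ℕ) : ℝ) := by exact_mod_cast h1
  rw [Y]
  refine h2.trans (le_of_eq ?_)
  push_cast
  ring

end

theorem proof_MOM (hUP : S_UP) (hLOW : S_LOW) (hFIB : S_FIB) : S_MOM := by
  intro V I _ _ _ _ s t k D hk hD hdeg
  set nV := Fintype.card V with hnV
  set nI := Fintype.card I with hnI
  refine ⟨(4 * k ^ 2 + 2) * nI + (k + k ^ 2) * nV + 2, ?_⟩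
  intro M N hM hN
  have hk0 : (0 : ℝ) < k := by positivity
  have hN1 : 1 ≤ N := by
    rw [hN]
    have : 1 ≤ k * (k - 1) := Nat.mul_pos (by omega) (by omega)
    exact Nat.mul_pos this hM
  have hNm : N = k * ((k - 1) * M) := by rw [hN]; ring
  obtain ⟨f, hf⟩ := exists_bal k ((k - 1) * M) N hNm
  have hbal : Bal f := bal_of hNm hf
  set m := (k - 1) * M with hm
  set T : ℝ := 3 * ((N : ℝ) + 1) with hT
  have hT3 : 3 ≤ T := by
    rw [hT]
    have : (0 : ℝ) ≤ N := Nat.cast_nonneg _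
    linarith
  have hT0 : 0 < T := by linarith
  have hT1 : 1 ≤ T := by linarith
  have hq : 0 < 1 - 1 / (k : ℝ) := by
    rw [sub_pos, div_lt_one hk0]
    exact_mod_cast (by omega : 1 < k)
  set q : ℝ := 1 - 1 / (k : ℝ) with hqdef
  set F : ℝ := (N.factorial : ℝ) with hF
  have hF0 : 0 < F := by positivity
  set P : ℝ := ((univ.filter fun π : Equiv.Perm (Fin N) => ∀ y, f y ≠ f (π y)).card : ℝ) with hP
  have hPlow : F * q ^ N ≤ T ^ (k ^ 2 + 1) * P := hLOW k M N hk hN f f hbal hbal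
  set S1 : ℝ := F ^ nV * P ^ nI with hS1
  have hsum : ∑ π : I → Equiv.Perm (Fin N), Y s t f π = S1 := sum_Y s t f
  have hS1low : F ^ nV * (F * q ^ N) ^ nI ≤ T ^ ((k ^ 2 + 1) * nI) * S1 := by
    have h1 : (F * q ^ N) ^ nI ≤ (T ^ (k ^ 2 + 1) * P) ^ nI :=
      pow_le_pow_left₀ (by positivity) hPlow _
    calc F ^ nV * (F * q ^ N) ^ nI ≤ F ^ nV * (T ^ (k ^ 2 + 1) * P) ^ nI :=
          mul_le_mul_of_nonneg_left h1 (by positivity)
      _ = _ := by rw [mul_pow, ← pow_mul, hS1]; ring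
  have hS1pos : 0 < S1 := by
    by_contra hneg
    have h0 : 0 < F ^ nV * (F * q ^ N) ^ nI := by positivity
    have : T ^ ((k ^ 2 + 1) * nI) * S1 ≤ 0 :=
      mul_nonpos_of_nonneg_of_nonpos (by positivity) (not_lt.1 hneg)
    linarith
  have hY2 := sum_Y2 s t hUP hFIB hN1 hk hNm D hD hdeg f hf
  have h5 : ((m.factorial : ℝ) ^ k) * (k : ℝ) ^ N ≤ F * T ^ k := fact_pow hNm
  have hpz := pz (Y s t f (N := N)) (fun π => by rw [Y]; positivity)
  rw [hsum, card_pi_perm] at hpz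
  set A := univ.filter fun π : I → Equiv.Perm (Fin N) =>
    S1 ≤ 2 * ((N.factorial ^ Fintype.card I : ℕ) : ℝ) * Y s t f π with hA
  have hS1q : S1 ^ 2 ≤ 4 * (A.card : ℝ) * ((F * T ^ (2 * k ^ 2) * q ^ (2 * N)) ^ nI *
        (F ^ nV * (F * T ^ (k + k ^ 2)) ^ nV)) :=
      hpz.trans (mul_le_mul_of_nonneg_left hY2 (by positivity))
  have hAm : ∀ π ∈ A, S1 ≤ 2 * F ^ nI * Y s t f π := by
    intro π hπ
    have h1 := (mem_filter.1 hπ).2
    push_cast at h1
    exact h1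
  clear hY2 hpz hsum
  clear_value A S1 P T q
  refine ⟨A, ?_, ?_⟩
  · -- size of A
    have h1 : S1 ^ 2 ≤ 4 * (A.card : ℝ) * ((F * T ^ (2 * k ^ 2) * q ^ (2 * N)) ^ nI *
        (F ^ nV * (F * T ^ (k + k ^ 2)) ^ nV)) := hS1q
    have h2 : (F ^ nV * (F * q ^ N) ^ nI) ^ 2 ≤ (T ^ ((k ^ 2 + 1) * nI)) ^ 2 * S1 ^ 2 := by
      rw [← mul_pow]
      exact pow_le_pow_left₀ (by positivity) hS1low 2
    have h3 : (F ^ nV * (F * q ^ N) ^ nI) ^ 2 ≤ (T ^ ((k ^ 2 + 1) * nI)) ^ 2 *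
        (4 * (A.card : ℝ) * ((F * T ^ (2 * k ^ 2) * q ^ (2 * N)) ^ nI *
        (F ^ nV * (F * T ^ (k + k ^ 2)) ^ nV))) :=
      h2.trans (mul_le_mul_of_nonneg_left h1 (by positivity))
    set W : ℝ := F ^ (2 * nV) * F ^ nI * q ^ (2 * N * nI) with hW
    have hW0 : 0 < W := by positivity
    have e1 : (F ^ nV * (F * q ^ N) ^ nI) ^ 2 = F ^ nI * W := by
      rw [hW]
      simp only [mul_pow, ← pow_mul]
      ring_nf
    have e2 : (T ^ ((k ^ 2 + 1) * nI)) ^ 2 *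
        (4 * (A.card : ℝ) * ((F * T ^ (2 * k ^ 2) * q ^ (2 * N)) ^ nI *
        (F ^ nV * (F * T ^ (k + k ^ 2)) ^ nV))) =
        (4 * T ^ ((4 * k ^ 2 + 2) * nI + (k + k ^ 2) * nV) * A.card) * W := by
      rw [hW]
      simp only [mul_pow, ← pow_mul, pow_add]
      ring_nf
    rw [e1, e2] at h3
    have h4 := le_of_mul_le_mul_right h3 hW0
    refine h4.trans ?_
    have h5 : (4 : ℝ) ≤ T ^ 2 := by nlinarith
    calc 4 * T ^ ((4 * k ^ 2 + 2) * nI + (k + k ^ 2) * nV) * (A.card : ℝ)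
        ≤ T ^ 2 * T ^ ((4 * k ^ 2 + 2) * nI + (k + k ^ 2) * nV) * (A.card : ℝ) := by gcongr
      _ = _ := by rw [pow_add T _ 2]; ring
  · intro π hπ
    have h1 := hAm π hπ
    have h2 := Y_le_cols s t f hf π
    set c : ℝ := ((cols s t k π).card : ℝ) with hc
    have hc0 : 0 ≤ c := Nat.cast_nonneg _
    have h3 : S1 ≤ 2 * F ^ nI * (((m.factorial : ℝ) ^ k) ^ nV * c) := by
      refine h1.trans ?_
      exact mul_le_mul_of_nonneg_left h2 (by positivity)
    have h4 : F ^ nV * (F * q ^ N) ^ nI ≤ T ^ ((k ^ 2 + 1) * nI) *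
        (2 * F ^ nI * (((m.factorial : ℝ) ^ k) ^ nV * c)) :=
      hS1low.trans (mul_le_mul_of_nonneg_left h3 (by positivity))
    have h6 : ((m.factorial : ℝ) ^ k) ^ nV * ((k : ℝ) ^ N) ^ nV ≤ F ^ nV * (T ^ k) ^ nV := by
      rw [← mul_pow, ← mul_pow]
      exact pow_le_pow_left₀ (by positivity) h5 _
    have h7 : (F ^ nI * ((m.factorial : ℝ) ^ k) ^ nV) * ((k : ℝ) ^ (N * nV) * q ^ (N * nI)) ≤
        (F ^ nI * ((m.factorial : ℝ) ^ k) ^ nV) *
          ((T ^ k) ^ nV * (T ^ ((k ^ 2 + 1) * nI) * (2 * c))) := by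
      calc (F ^ nI * ((m.factorial : ℝ) ^ k) ^ nV) * ((k : ℝ) ^ (N * nV) * q ^ (N * nI))
          = (F ^ nI * q ^ (N * nI)) * (((m.factorial : ℝ) ^ k) ^ nV * ((k : ℝ) ^ N) ^ nV) := by
            rw [← pow_mul]; ring
        _ ≤ (F ^ nI * q ^ (N * nI)) * (F ^ nV * (T ^ k) ^ nV) :=
            mul_le_mul_of_nonneg_left h6 (by positivity)
        _ = (F ^ nV * (F * q ^ N) ^ nI) * (T ^ k) ^ nV := by
            rw [mul_pow, ← pow_mul]; ring
        _ ≤ (T ^ ((k ^ 2 + 1) * nI) * (2 * F ^ nI * (((m.factorial : ℝ) ^ k) ^ nV * c))) *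
              (T ^ k) ^ nV := mul_le_mul_of_nonneg_right h4 (by positivity)
        _ = _ := by ring
    have h8 := le_of_mul_le_mul_left h7 (by positivity)
    refine h8.trans ?_
    have h9 : (T ^ k) ^ nV * (T ^ ((k ^ 2 + 1) * nI) * (2 * c)) =
        2 * T ^ (k * nV + (k ^ 2 + 1) * nI) * c := by
      rw [← pow_mul, pow_add]; ring
    rw [h9]
    have h10 : 2 * T ^ (k * nV + (k ^ 2 + 1) * nI) ≤
        T ^ ((4 * k ^ 2 + 2) * nI + (k + k ^ 2) * nV + 2) := by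
      calc 2 * T ^ (k * nV + (k ^ 2 + 1) * nI) ≤ T * T ^ (k * nV + (k ^ 2 + 1) * nI) := by
            gcongr; linarith
        _ = T ^ (k * nV + (k ^ 2 + 1) * nI + 1) := by rw [pow_succ]; ring
        _ ≤ _ := by
            refine pow_le_pow_right₀ hT1 ?_
            nlinarith [Nat.zero_le (k ^ 2 * nI), Nat.zero_le (k ^ 2 * nV), Nat.zero_le nI,
              Nat.zero_le (k * nV)]
    exact mul_le_mul_of_nonneg_right h10 hc0

end Pool.Agent.N404.LF
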