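import Pool.Agent.N404.LF.Perm

set_option autoImplicit false

/-! The bound for one edge and a pair of colourings. -/

namespace Pool.Agent.N404.LF

open Finset Classical

theorem pairsum {k : ℕ} (hk : 1 ≤ k) (a b : Fin k → Fin k → ℝ)
    (ha1 : ∀ c, ∑ d, a c d = 1 / k) (_ha2 : ∀ d, ∑ c, a c d = 1 / k)
    (hb1 : ∀ c, ∑ d, b c d = 1 / k) (hb2 : ∀ d, ∑ c, b c d = 1 / k) :
    ∑ c, ∑ d, ∑ c', ∑ d', (if c ≠ c' ∧ d ≠ d' then a c d * b c' d' else 0) =
      1 - 2 / k + ∑ c, ∑ d, a c d * b c d := by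
  have hk0 : (k : ℝ) ≠ 0 := by positivity
  have h1 : ∀ c d c' d', (if c ≠ c' ∧ d ≠ d' then a c d * b c' d' else 0) =
      a c d * b c' d' - (if c = c' then a c d * b c' d' else 0) -
      (if d = d' then a c d * b c' d' else 0) +
      (if c = c' then (if d = d' then a c d * b c' d' else 0) else 0) := by
    intro c d c' d'
    by_cases h : c = c' <;> by_cases h' : d = d' <;> simp [h, h']
  simp only [h1, Finset.sum_add_distrib, Finset.sum_sub_distrib]
  have e1 : ∑ c, ∑ d, ∑ c', ∑ d', a c d * b c' d' = 1 := by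
    have : ∀ c d, ∑ c', ∑ d', a c d * b c' d' = a c d := by
      intro c d
      simp only [← Finset.mul_sum, hb1, Finset.sum_const, card_univ, Fintype.card_fin, nsmul_eq_mul]
      field_simp
    simp only [this, ha1, Finset.sum_const, card_univ, Fintype.card_fin, nsmul_eq_mul]
    field_simp
  have e2 : ∑ c, ∑ d, ∑ c', ∑ d', (if c = c' then a c d * b c' d' else 0) = 1 / k := by
    have : ∀ c d, ∑ c', ∑ d', (if c = c' then a c d * b c' d' else 0) = a c d * (1 / k) := by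
      intro c d
      rw [Finset.sum_eq_single c]
      · simp only [if_true, ← Finset.mul_sum, hb1]
      · intro c' _ h
        simp [Ne.symm h]
      · intro h; exact absurd (mem_univ _) h
    simp only [this, ← Finset.sum_mul, ha1, Finset.sum_const, card_univ, Fintype.card_fin,
      nsmul_eq_mul]
    field_simp
  have e3 : ∑ c, ∑ d, ∑ c', ∑ d', (if d = d' then a c d * b c' d' else 0) = 1 / k := by
    have : ∀ c d, ∑ c', ∑ d', (if d = d' then a c d * b c' d' else 0) = a c d * (1 / k) := by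
      intro c d
      simp only [Finset.sum_ite_eq, mem_univ, if_true, ← Finset.mul_sum, hb2]
    simp only [this, ← Finset.sum_mul, ha1, Finset.sum_const, card_univ, Fintype.card_fin,
      nsmul_eq_mul]
    field_simp
  have e4 : ∑ c, ∑ d, ∑ c', ∑ d',
      (if c = c' then (if d = d' then a c d * b c' d' else 0) else 0) =
      ∑ c, ∑ d, a c d * b c d := by
    refine Finset.sum_congr rfl fun c _ => Finset.sum_congr rfl fun d _ => ?_
    rw [Finset.sum_eq_single c]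
    · simp
    · intro c' _ h
      simp [Ne.symm h]
    · intro h; exact absurd (mem_univ _) h
  rw [e1, e2, e3, e4]
  ring

/-- the two conditions of a pair of colourings -/
def R2 {k : ℕ} (p p' : Fin k × Fin k) : Prop := p.1 ≠ p'.1 ∧ p.2 ≠ p'.2

theorem marg_left {N k : ℕ} (hN : 1 ≤ N) (hk : 1 ≤ k) (f g : Fin N → Fin k) (hf : Bal f) (c : Fin k) :
    ∑ d, (cnt (fun x => (f x, g x)) (c, d) : ℝ) / N = 1 / k := by
  rw [← Finset.sum_div, ← Nat.cast_sum, sum_cnt_left]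
  have h := hf c
  rw [Fintype.card_fin] at h
  have h' : (k : ℝ) * (cnt f c : ℝ) = N := by exact_mod_cast h
  have hN0 : (N : ℝ) ≠ 0 := by positivity
  have hk0 : (k : ℝ) ≠ 0 := by positivity
  rw [div_eq_div_iff hN0 hk0]
  linarith

theorem marg_right {N k : ℕ} (hN : 1 ≤ N) (hk : 1 ≤ k) (f g : Fin N → Fin k) (hg : Bal g)
    (d : Fin k) : ∑ c, (cnt (fun x => (f x, g x)) (c, d) : ℝ) / N = 1 / k := by
  rw [← Finset.sum_div, ← Nat.cast_sum, sum_cnt_right]
  have h := hg d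
  rw [Fintype.card_fin] at h
  have h' : (k : ℝ) * (cnt g d : ℝ) = N := by exact_mod_cast h
  have hN0 : (N : ℝ) ≠ 0 := by positivity
  have hk0 : (k : ℝ) ≠ 0 := by positivity
  rw [div_eq_div_iff hN0 hk0]
  linarith

theorem ov_nonneg {N k : ℕ} (hN : 1 ≤ N) (hk : 1 ≤ k) (f g : Fin N → Fin k) (hf : Bal f) :
    0 ≤ ov f g := by
  unfold ov
  rw [Fintype.card_fin]
  have hk0 : (0 : ℝ) < k := by positivity
  have h1 : ∀ c : Fin k, (1 / (k : ℝ)) ^ 2 ≤
      k * ∑ d, ((cnt (fun x => (f x, g x)) (c, d) : ℝ) / N) ^ 2 := by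
    intro c
    have := sq_sum_le_card_mul_sum_sq (s := (univ : Finset (Fin k)))
      (f := fun d => (cnt (fun x => (f x, g x)) (c, d) : ℝ) / N)
    rw [marg_left hN hk f g hf c, card_univ, Fintype.card_fin] at this
    exact this
  have h2 := Finset.sum_le_sum fun (c : Fin k) (_ : c ∈ univ) => h1 c
  rw [Finset.sum_const, card_univ, Fintype.card_fin, ← Finset.mul_sum, nsmul_eq_mul] at h2
  have h3 : (k : ℝ) * (1 / (k : ℝ)) ^ 2 = k * (1 / (k : ℝ) ^ 2) := by
    field_simp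
  rw [h3] at h2
  have h4 := le_of_mul_le_mul_left h2 hk0
  linarith

theorem pair_bound (hUP : S_UP) {N k : ℕ} (hN : 1 ≤ N) (hk : 2 ≤ k) (f₁ f₂ g₁ g₂ : Fin N → Fin k)
    (hf₁ : Bal f₁) (hf₂ : Bal f₂) (hg₁ : Bal g₁) (hg₂ : Bal g₂) :
    ((univ.filter fun π : Equiv.Perm (Fin N) =>
      ∀ x, R2 (f₁ x, f₂ x) (g₁ (π x), g₂ (π x))).card : ℝ) ≤
    (N.factorial : ℝ) * (3 * ((N : ℝ) + 1)) ^ (2 * k ^ 2) * (1 - 1 / (k : ℝ)) ^ (2 * N) *
      Real.exp (N * (((k : ℝ) / (k - 1)) ^ 2 / 2) * (ov f₁ f₂ + ov g₁ g₂)) := by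
  have hk0 : (0 : ℝ) < k := by positivity
  have hk1 : (0 : ℝ) < (k : ℝ) - 1 := by
    have : (2 : ℝ) ≤ k := by exact_mod_cast hk
    linarith
  have h := hUP (Fin k × Fin k) (Fin k × Fin k) N (fun x => (f₁ x, f₂ x)) (fun x => (g₁ x, g₂ x))
    R2 hN
  refine h.trans ?_
  have hcard : Fintype.card (Fin k × Fin k) + Fintype.card (Fin k × Fin k) = 2 * k ^ 2 := by
    rw [Fintype.card_prod, Fintype.card_fin]; ring
  rw [hcard]
  set a : Fin k → Fin k → ℝ := fun c d => (cnt (fun x => (f₁ x, f₂ x)) (c, d) : ℝ) / N with ha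
  set b : Fin k → Fin k → ℝ := fun c d => (cnt (fun x => (g₁ x, g₂ x)) (c, d) : ℝ) / N with hb
  have hsum : (∑ p : Fin k × Fin k, ∑ p' : Fin k × Fin k, if R2 p p' then
      ((cnt (fun x => (f₁ x, f₂ x)) p : ℝ) / N) * ((cnt (fun x => (g₁ x, g₂ x)) p' : ℝ) / N) else 0)
      = 1 - 2 / k + ∑ c, ∑ d, a c d * b c d := by
    rw [← pairsum (by omega) a b (fun c => marg_left hN (by omega) f₁ f₂ hf₁ c)
      (fun d => marg_right hN (by omega) f₁ f₂ hf₂ d)
      (fun c => marg_left hN (by omega) g₁ g₂ hg₁ c)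
      (fun d => marg_right hN (by omega) g₁ g₂ hg₂ d)]
    rw [Fintype.sum_prod_type]
    refine Finset.sum_congr rfl fun c _ => Finset.sum_congr rfl fun d _ => ?_
    rw [Fintype.sum_prod_type]
    refine Finset.sum_congr rfl fun c' _ => Finset.sum_congr rfl fun d' _ => ?_
    by_cases hcd : c ≠ c' ∧ d ≠ d'
    · rw [if_pos hcd, if_pos (show R2 (c, d) (c', d') from hcd)]
    · rw [if_neg hcd, if_neg (show ¬ R2 (c, d) (c', d') from hcd)]
  rw [hsum]
  have hab : ∑ c, ∑ d, a c d * b c d ≤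
      (∑ c, ∑ d, a c d ^ 2 + ∑ c, ∑ d, b c d ^ 2) / 2 := by
    rw [← Finset.sum_add_distrib, Finset.sum_div]
    refine Finset.sum_le_sum fun c _ => ?_
    rw [← Finset.sum_add_distrib, Finset.sum_div]
    refine Finset.sum_le_sum fun d _ => ?_
    nlinarith [sq_nonneg (a c d - b c d)]
  have hov1 : ov f₁ f₂ = ∑ c, ∑ d, a c d ^ 2 - 1 / (k : ℝ) ^ 2 := by
    unfold ov; rw [Fintype.card_fin]
  have hov2 : ov g₁ g₂ = ∑ c, ∑ d, b c d ^ 2 - 1 / (k : ℝ) ^ 2 := by
    unfold ov; rw [Fintype.card_fin]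
  set y := ∑ c, ∑ d, a c d * b c d with hy
  set κ : ℝ := ((k : ℝ) / (k - 1)) ^ 2 with hκ
  have hκ0 : 0 < κ := by positivity
  have hbase : 1 - 2 / (k : ℝ) + y ≤ (1 - 1 / (k : ℝ)) ^ 2 *
      Real.exp (κ / 2 * (ov f₁ f₂ + ov g₁ g₂)) := by
    have h1 : 1 - 2 / (k : ℝ) + y = (1 - 1 / (k : ℝ)) ^ 2 * (κ * (y - 1 / (k : ℝ) ^ 2) + 1) := by
      rw [hκ]
      field_simp
      ring
    rw [h1]
    refine mul_le_mul_of_nonneg_left ?_ (sq_nonneg _)
    refine (Real.add_one_le_exp _).trans (Real.exp_le_exp.2 ?_)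
    rw [hov1, hov2]
    nlinarith
  have hy0 : 0 ≤ 1 - 2 / (k : ℝ) + y := by
    have h1 : 0 ≤ y := by
      refine Finset.sum_nonneg fun c _ => Finset.sum_nonneg fun d _ => ?_
      positivity
    have h2 : 2 / (k : ℝ) ≤ 1 := by
      rw [div_le_one hk0]; exact_mod_cast hk
    linarith
  have hpow := pow_le_pow_left₀ hy0 hbase N
  refine (mul_le_mul_of_nonneg_left hpow (by positivity)).trans (le_of_eq ?_)
  have e2 : ((1 - 1 / (k : ℝ)) ^ 2 * Real.exp (κ / 2 * (ov f₁ f₂ + ov g₁ g₂))) ^ N =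
      (1 - 1 / (k : ℝ)) ^ (2 * N) * Real.exp (N * (κ / 2) * (ov f₁ f₂ + ov g₁ g₂)) := by
    rw [mul_pow, ← pow_mul, ← Real.exp_nat_mul, mul_assoc (N : ℝ)]
  rw [e2]
  ring

end Pool.Agent.N404.LF
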