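import Pool.Agent.N404.LF.Stm

set_option autoImplicit false

/-! Substitutions and fibres for permutations. -/

namespace Pool.Agent.N404.LF

open Finset Classical

variable {N : ℕ}

theorem card_sub {A B : Type} (F : Fin N → A) (G : Fin N → B) (R : A → B → Prop)
    (α β : Equiv.Perm (Fin N)) :
    (univ.filter fun π : Equiv.Perm (Fin N) => ∀ a, R (F (α a)) (G (β (π a)))).card =
      (univ.filter fun π : Equiv.Perm (Fin N) => ∀ y, R (F y) (G (π y))).card := by
  refine Finset.card_equiv ((Equiv.mulLeft β).trans (Equiv.mulRight α⁻¹)) fun π => ?_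
  simp only [mem_filter, mem_univ, true_and, Equiv.trans_apply, Equiv.coe_mulLeft,
    Equiv.coe_mulRight, Equiv.Perm.mul_apply]
  constructor
  · intro h y
    have := h (α⁻¹ y)
    simpa using this
  · intro h a
    have := h (α a)
    simpa using this

theorem fib_card {A : Type} [Fintype A] (f g : Fin N → A) :
    (univ.filter fun θ : Equiv.Perm (Fin N) => f ∘ θ = g).card ≤ ∏ a, (cnt f a).factorial := by
  rcases (univ.filter fun θ : Equiv.Perm (Fin N) => f ∘ θ = g).eq_empty_or_nonempty with h | ⟨r, hr⟩
  · rw [h, card_empty]; exact Nat.zero_le _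
  · have hr' : f ∘ r = g := (mem_filter.1 hr).2
    have h1 : (univ.filter fun θ : Equiv.Perm (Fin N) => f ∘ θ = g).card =
        (univ.filter fun θ : Equiv.Perm (Fin N) => f ∘ θ = f).card := by
      refine Finset.card_equiv (Equiv.mulRight r⁻¹) fun θ => ?_
      simp only [mem_filter, mem_univ, true_and, Equiv.coe_mulRight]
      rw [← hr']
      constructor
      · intro h
        funext x
        have := congrFun h (r⁻¹ x)
        simpa [Function.comp] using this
      · intro h
        funext x
        have := congrFun h (r x)
        simpa [Function.comp] using this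
    rw [h1]
    have h2 := DomMulAct.stabilizer_card f
    rw [Fintype.card_subtype] at h2
    refine le_of_eq ?_
    convert h2 using 2
    · rw [Fintype.card_subtype]; rfl

theorem fib_card_bal {k : ℕ} (f g : Fin N → Fin k) {s : ℕ} (hf : ∀ c, cnt f c = s) :
    (univ.filter fun θ : Equiv.Perm (Fin N) => f ∘ θ = g).card ≤ s.factorial ^ k := by
  have h1 : ∏ a, (cnt f a).factorial = s.factorial ^ k := by
    rw [Finset.prod_congr rfl fun a _ => by rw [hf a]]
    simp
  have h2 := (fib_card f g).trans (le_of_eq h1)
  refine le_trans (le_of_eq ?_) h2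
  congr

/-- A balanced map exists. -/
theorem exists_bal (k s N : ℕ) (h : N = k * s) : ∃ f : Fin N → Fin k, ∀ c, cnt f c = s := by
  subst h
  refine ⟨fun x => (finProdFinEquiv.symm x).1, fun c => ?_⟩
  have this : (univ.filter fun x : Fin (k * s) => (finProdFinEquiv.symm x).1 = c).card =
      (univ.filter fun p : Fin k × Fin s => p.1 = c).card := by
    refine Finset.card_equiv finProdFinEquiv.symm fun x => ?_
    simp
  have h2 : (univ.filter fun p : Fin k × Fin s => p.1 = c) = ({c} : Finset (Fin k)) ×ˢ univ := by
    ext p
    simp only [mem_filter, mem_univ, true_and, mem_product, mem_singleton, and_true]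
  rw [h2, card_product, card_singleton, one_mul, card_univ, Fintype.card_fin] at this
  unfold cnt
  convert this

theorem sum_cnt {X A : Type} [Fintype X] [Fintype A] (f : X → A) : ∑ a, cnt f a = Fintype.card X := by
  unfold cnt
  have := Finset.card_eq_sum_card_fiberwise (f := f) (s := univ) (t := univ) (fun _ _ => mem_univ _)
  rw [card_univ] at this
  exact this.symm

theorem cnt_comp {X A : Type} [Fintype X] (f : X → A) (θ : Equiv.Perm X) (a : A) :
    cnt (f ∘ θ) a = cnt f a := by
  unfold cnt
  refine Finset.card_equiv θ fun x => ?_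
  simp

theorem sum_cnt_left {X A B : Type} [Fintype X] [Fintype A] [Fintype B] (f : X → A) (g : X → B)
    (a : A) : ∑ b, cnt (fun x => (f x, g x)) (a, b) = cnt f a := by
  unfold cnt
  have := Finset.card_eq_sum_card_fiberwise (f := g) (s := univ.filter fun x => f x = a) (t := univ)
    (fun _ _ => mem_univ _)
  rw [this]
  refine Finset.sum_congr rfl fun b _ => ?_
  congr 1
  ext x
  simp [Prod.ext_iff]

theorem sum_cnt_right {X A B : Type} [Fintype X] [Fintype A] [Fintype B] (f : X → A) (g : X → B)
    (b : B) : ∑ a, cnt (fun x => (f x, g x)) (a, b) = cnt g b := by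
  unfold cnt
  have := Finset.card_eq_sum_card_fiberwise (f := f) (s := univ.filter fun x => g x = b) (t := univ)
    (fun _ _ => mem_univ _)
  rw [this]
  refine Finset.sum_congr rfl fun a _ => ?_
  congr 1
  ext x
  simp [Prod.ext_iff, and_comm]

end Pool.Agent.N404.LF
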