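import Mathlib

set_option autoImplicit false

/-!
# Project LF (MP_ef9bc2_co): counting the colourings of random lifts. Definitions and statements.
-/

namespace Pool.Agent.N404.LF

open Finset Classical

/-- The number of the `x` with `f x = a`. -/
noncomputable def cnt {X A : Type} [Fintype X] (f : X → A) (a : A) : ℕ :=
  (univ.filter fun x => f x = a).card

/-- `f` takes each of the `k` values equally often. -/
def Bal {X : Type} [Fintype X] {k : ℕ} (f : X → Fin k) : Prop :=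
  ∀ c, k * cnt f c = Fintype.card X

/-- `∑ a(c,d)² - 1/k²` for the overlap matrix `a` of two colourings. -/
noncomputable def ov {X : Type} [Fintype X] {k : ℕ} (f g : X → Fin k) : ℝ :=
  (∑ c, ∑ d, ((cnt (fun x => (f x, g x)) (c, d) : ℝ) / Fintype.card X) ^ 2) - 1 / (k : ℝ) ^ 2

/-- Hamming distance of two families of permutations. -/
noncomputable def hd {I X : Type} [Fintype I] [Fintype X] (π π' : I → Equiv.Perm X) : ℕ :=
  (univ.filter fun p : I × X => π p.1 p.2 ≠ π' p.1 p.2).card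

/-- The `N`-lift of the multigraph with vertex set `V`, edge set `I` and end points `s i`, `t i`
of the edge `i` that is given by the permutations `π i` of `Fin N`: for every edge `i` the copy
`(s i, a)` is joined to the copy `(t i, π i a)`. Loops are dropped, parallel edges are merged. -/
def Lift {V I : Type} (s t : I → V) {N : ℕ} (π : I → Equiv.Perm (Fin N)) :
    SimpleGraph (V × Fin N) :=
  SimpleGraph.fromRel fun x y => ∃ i, x.1 = s i ∧ y.1 = t i ∧ y.2 = π i x.2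

/-- The number of the edges of the lift (with multiplicity) inside `U`. -/
noncomputable def eU {V I : Type} [Fintype I] (s t : I → V) {N : ℕ} (π : I → Equiv.Perm (Fin N))
    (U : Finset (V × Fin N)) : ℕ :=
  (univ.filter fun p : I × Fin N => (s p.1, p.2) ∈ U ∧ (t p.1, π p.1 p.2) ∈ U).card

/-- The strongly proper colourings of the lift. -/
noncomputable def cols {V I : Type} [Fintype V] [DecidableEq V] (s t : I → V) (k : ℕ) {N : ℕ}
    (π : I → Equiv.Perm (Fin N)) : Finset (V → Fin N → Fin k) :=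
  univ.filter fun σ => ∀ i a, σ (s i) a ≠ σ (t i) (π i a)

/-! ### leaves -/

/-- Factorials. -/
def S_FACT : Prop := ∀ n : ℕ, (n : ℝ) ^ n ≤ n.factorial * Real.exp n ∧
  (n.factorial : ℝ) * Real.exp n ≤ 3 * (n + 1) * (n : ℝ) ^ n

/-- Random permutations and types, upper bound. -/
def S_UP : Prop := ∀ (A B : Type) [Fintype A] [Fintype B] (N : ℕ) (f : Fin N → A) (g : Fin N → B)
  (R : A → B → Prop), 1 ≤ N →
  ((univ.filter fun π : Equiv.Perm (Fin N) => ∀ x, R (f x) (g (π x))).card : ℝ) ≤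
    (N.factorial : ℝ) * (3 * ((N : ℝ) + 1)) ^ (Fintype.card A + Fintype.card B) *
      (∑ a, ∑ b, if R a b then ((cnt f a : ℝ) / N) * ((cnt g b : ℝ) / N) else 0) ^ N

/-- Random permutations and types, lower bound for balanced colourings. -/
def S_LOW : Prop := ∀ k M N : ℕ, 2 ≤ k → N = k * (k - 1) * M → ∀ f g : Fin N → Fin k,
  Bal f → Bal g →
  (N.factorial : ℝ) * (1 - 1 / (k : ℝ)) ^ N ≤ (3 * ((N : ℝ) + 1)) ^ (k ^ 2 + 1) *
    ((univ.filter fun π : Equiv.Perm (Fin N) => ∀ x, f x ≠ g (π x)).card : ℝ)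

/-- One fibre: the sum over all colourings, weighted by the overlap with a balanced one. -/
def S_FIB : Prop := ∀ (k : ℕ) (D : ℝ), 2 ≤ k → D ≤ 2 * (k * Real.log k - k + 1) →
  ∀ (X : Type) [Fintype X] [DecidableEq X] (f : X → Fin k), Bal f →
  ∑ g : X → Fin k, Real.exp (Fintype.card X * (D / 2 * ((k : ℝ) / (k - 1)) ^ 2) * ov f g) ≤
    ((Fintype.card X : ℝ) + 1) ^ (k ^ 2) * (k : ℝ) ^ Fintype.card X

/-- Concentration for families of permutations. -/
def S_ISO : Prop := ∀ (I : Type) [Fintype I] [DecidableEq I] (N : ℕ)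
  (A : Finset (I → Equiv.Perm (Fin N))) (t : ℝ), 0 ≤ t →
  (A.card : ℝ) *
    ((univ.filter fun π : I → Equiv.Perm (Fin N) => ∀ π' ∈ A, t ≤ hd π π').card : ℝ) ≤
    ((N.factorial : ℝ) ^ Fintype.card I) ^ 2 *
      Real.exp (-(t ^ 2 / (18 * (N * Fintype.card I))))

/-- Small sets of vertices of a random lift span few edges. -/
def S_SPA : Prop := ∀ (V I : Type) [Fintype V] [Fintype I] [DecidableEq I] (s t : I → V),
  ∃ C : ℕ, ∀ N m : ℕ, C * m ≤ N →
    N * (univ.filter fun π : I → Equiv.Perm (Fin N) => ∃ U : Finset (V × Fin N),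
      U.Nonempty ∧ U.card ≤ m ∧ 2 * U.card ≤ eU s t π U).card ≤
    C * m * N.factorial ^ Fintype.card I

/-- Sets that span few edges are 4-colourable. -/
def S_DEG : Prop := ∀ (V I : Type) [Fintype V] [Fintype I] (s t : I → V) (N : ℕ)
  (π : I → Equiv.Perm (Fin N)) (U : Finset (V × Fin N)),
  (∀ W ⊆ U, W.Nonempty → eU s t π W < 2 * W.card) →
  ∃ c : V × Fin N → Fin 4, ∀ i a, (s i, a) ∈ U → (t i, π i a) ∈ U →
    (s i, a) ≠ (t i, π i a) → c (s i, a) ≠ c (t i, π i a)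

/-- Few edges of a random lift are loops or parallel to others. -/
def S_EDG : Prop := ∀ (V I : Type) [Fintype V] [Fintype I] [DecidableEq I] (s t : I → V),
  ∃ C : ℕ, ∀ N D : ℕ, 1 ≤ N →
    D * (univ.filter fun π : I → Equiv.Perm (Fin N) =>
      Nat.card (Lift s t π).edgeSet + D < N * Fintype.card I).card ≤
    C * N.factorial ^ Fintype.card I

/-- Numbers, for one `q`. -/
def S_NUM : Prop := ∀ (q n m : ℕ) (D : ℝ), 30 ≤ q → 0 ≤ D → D ≤ 2 * q * Real.log q - 3 * q →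
  2 * (m : ℝ) ≤ D * n →
  D ≤ 2 * (((q - 4 : ℕ) : ℝ) * Real.log ((q - 4 : ℕ) : ℝ) - ((q - 4 : ℕ) : ℝ) + 1) ∧
  (1 - 1 / (q : ℝ)) ^ m * ((1 - (5 / q + 3 * D / (q : ℝ) ^ 2)) * q) ^ n ≤
    (1 - 1 / ((q - 4 : ℕ) : ℝ)) ^ m * (((q - 4 : ℕ) : ℝ) * (1 - 1 / (q : ℝ))) ^ n

/-- Numbers, asymptotics. -/
def S_ASY : Prop := ∀ ε η : ℝ, 0 < ε → 0 < η → ∃ Δ0 : ℕ, ∀ Δ q : ℕ, Δ0 ≤ Δ →
  (1 / 2 + ε) * (Δ / Real.log Δ) ≤ q →
  30 ≤ q ∧ (Δ : ℝ) ≤ 2 * q * Real.log q - 3 * q ∧ 5 / (q : ℝ) + 3 * Δ / (q : ℝ) ^ 2 ≤ η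

/-! ### assembly -/

/-- The second moment. -/
def S_MOM : Prop := ∀ (V I : Type) [Fintype V] [DecidableEq V] [Fintype I] [DecidableEq I]
  (s t : I → V) (k : ℕ) (D : ℝ), 2 ≤ k → D ≤ 2 * (k * Real.log k - k + 1) →
  (∀ v, (((univ.filter fun i => s i = v).card + (univ.filter fun i => t i = v).card : ℕ) : ℝ) ≤ D) →
  ∃ C : ℕ, ∀ M N : ℕ, 1 ≤ M → N = k * (k - 1) * M →
    ∃ A : Finset (I → Equiv.Perm (Fin N)),
      (N.factorial : ℝ) ^ Fintype.card I ≤ (3 * ((N : ℝ) + 1)) ^ C * A.card ∧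
      ∀ π ∈ A, (k : ℝ) ^ (N * Fintype.card V) * (1 - 1 / (k : ℝ)) ^ (N * Fintype.card I) ≤
        (3 * ((N : ℝ) + 1)) ^ C * (cols s t k π).card

/-- The main count for almost all lifts. -/
def S_MAIN : Prop := ∀ (V I : Type) [Fintype V] [DecidableEq V] [Fintype I] [DecidableEq I]
  (s t : I → V) (k : ℕ) (D θ : ℝ), 2 ≤ k → D ≤ 2 * (k * Real.log k - k + 1) →
  (∀ v, (((univ.filter fun i => s i = v).card + (univ.filter fun i => t i = v).card : ℕ) : ℝ) ≤ D) →
  0 < θ → θ < 1 →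
  ∃ N₀ : ℕ, ∀ N : ℕ, N₀ ≤ N →
    (N : ℝ) ^ (1 / 3 : ℝ) * ((univ.filter fun π : I → Equiv.Perm (Fin N) =>
      ¬ ((1 - 1 / (k : ℝ)) ^ (Nat.card (Lift s t π).edgeSet) *
          ((k : ℝ) * (1 - θ)) ^ (N * Fintype.card V) ≤
        (Nat.card ((Lift s t π).Coloring (Fin (k + 4))) : ℝ))).card : ℝ) ≤
    (N.factorial : ℝ) ^ Fintype.card I

end Pool.Agent.N404.LF
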